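import Pool.Agent.V8H88.UN.Core
import Pool.Agent.V8H88.RM.NT3

/-!
# The relations between the Frobenius eigenvalues are balanced
-/

set_option autoImplicit false
set_option linter.unusedSectionVars false

open Polynomial NumberField

namespace Pool.Agent.V8H88.UN

open Pool.Agent.W458.MF Pool.Agent.W521.Frob Pool.Agent.W521.Criterion Pool.Agent.W338.MF

section Bar

variable {L : Type} [Field L] [Algebra ℚ L] {I : Type} [Fintype I] {q : I → ℕ}
  {Ω : I → Finset L}

/-- The function with `x` replaced by `q / x`. -/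
def barf (q : I → ℕ) (n : I → L → ℤ) : I → L → ℤ := fun i x => n i ((q i : L) / x)

lemma Sys.bar_iff (S : Sys q Ω) (i : I) (x : L) : (q i : L) / x ∈ Ω i ↔ x ∈ Ω i := by
  constructor
  · intro h
    have h1 := S.bar i _ h
    rwa [div_div_cancel₀ (S.q_ne i)] at h1
  · exact S.bar i x

lemma barf_act (σ : L ≃ₐ[ℚ] L) (n : I → L → ℤ) : barf q (act σ n) = act σ (barf q n) := by
  funext i x
  unfold barf act
  rw [map_div₀, map_natCast]

lemma dd_sub (σ τ : L ≃ₐ[ℚ] L) (a b : I → L → ℤ) : dd σ τ (a - b) = dd σ τ a - dd σ τ b := by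
  funext i x
  simp only [dd, act, Pi.sub_apply]
  ring

lemma barf_dd (σ τ : L ≃ₐ[ℚ] L) (n : I → L → ℤ) : barf q (dd σ τ n) = dd σ τ (barf q n) := by
  funext i x
  simp only [dd, act, barf, Pi.sub_apply, map_div₀, map_natCast]

lemma Sys.sum_dd (S : Sys q Ω) (σ τ : L ≃ₐ[ℚ] L) (n : I → L → ℤ) (i : I) :
    ∑ x ∈ Ω i, dd σ τ n i x = 0 := by
  have h1 : ∀ (ρ : L ≃ₐ[ℚ] L) (m : L → ℤ), ∑ x ∈ Ω i, m (ρ.symm x) = ∑ x ∈ Ω i, m x := by
    intro ρ m
    refine Finset.sum_bij (fun x _ => ρ.symm x) (fun x hx => (S.stab_symm i ρ x).2 hx)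
      (fun x _ y _ h => ρ.symm.injective h) (fun x hx => ⟨ρ x, S.stab i ρ x hx,
        ρ.symm_apply_apply x⟩) (fun x _ => rfl)
  simp only [dd, act, Pi.sub_apply, Finset.sum_sub_distrib]
  rw [h1 σ (n i), h1 τ (n i), h1 τ (fun x => n i (σ.symm x)), h1 σ (n i)]
  ring

lemma Sys.val_barf (S : Sys q Ω) (m : I → L → ℤ) (hm : ∀ i, ∑ x ∈ Ω i, m i x = 0) :
    val Ω (barf q m) = (val Ω m)⁻¹ := by
  unfold val
  rw [← Finset.prod_inv_distrib]
  refine Finset.prod_congr rfl fun i _ => ?_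
  have h1 : ∏ x ∈ Ω i, x ^ (barf q m i x) = ∏ x ∈ Ω i, ((q i : L) / x) ^ (m i x) := by
    refine Finset.prod_bij (fun x _ => (q i : L) / x) (fun x hx => S.bar i x hx) ?_ ?_ ?_
    · intro x hx y hy h
      have h2 : (q i : L) / ((q i : L) / x) = (q i : L) / ((q i : L) / y) := by rw [h]
      rwa [div_div_cancel₀ (S.q_ne i), div_div_cancel₀ (S.q_ne i)] at h2
    · intro x hx
      exact ⟨(q i : L) / x, S.bar i x hx, div_div_cancel₀ (S.q_ne i)⟩
    · intro x hx
      rw [div_div_cancel₀ (S.q_ne i)]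
      rfl
  rw [h1]
  have h2 : ∀ x ∈ Ω i, ((q i : L) / x) ^ (m i x) = (q i : L) ^ (m i x) * (x ^ (m i x))⁻¹ := by
    intro x _
    rw [div_zpow, div_eq_mul_inv]
  have h3 : ∀ s : Finset L, ∏ x ∈ s, (q i : L) ^ (m i x) = (q i : L) ^ (∑ x ∈ s, m i x) := by
    classical
    intro s
    induction s using Finset.induction_on with
    | empty => simp
    | insert a s ha ih => rw [Finset.prod_insert ha, Finset.sum_insert ha, zpow_add₀ (S.q_ne i), ih]
  rw [Finset.prod_congr rfl h2, Finset.prod_mul_distrib, h3, hm i, zpow_zero, one_mul,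
    Finset.prod_inv_distrib]

/-- A function such that the operators `(1 - τ) (1 - σ)` map the product to a root of unity is
even. -/
theorem Sys.even_of_rel [DecidableEq L] (S : Sys q Ω) (P : (L ≃ₐ[ℚ] L) → Prop)
    (hprj : ∀ i, ∀ x ∈ Ω i, ∃ σ τ, IsPrj (q i) (Ω i) x σ τ ∧ P σ)
    (hdiff : ∀ i j, i ≠ j → ∃ ρ : L ≃ₐ[ℚ] L,
      ¬ ((∀ x ∈ Ω i, ρ x = x) ↔ (∀ x ∈ Ω j, ρ x = x)))
    (n : I → L → ℤ) (hn : ∀ i, ∀ x ∉ Ω i, n i x = 0)
    (hrel : ∀ σ, P σ → Tors Ω (n - act σ n)) (i : I) (x : L) :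
    n i x = n i ((q i : L) / x) := by
  by_contra hne
  have hsub : Odd' q Ω (n - barf q n) := by
    refine ⟨fun i x hx => ?_, fun i x hx => ?_⟩
    · simp only [Pi.sub_apply, barf]
      rw [hn i x hx, hn i _ (by rwa [S.bar_iff]), sub_self]
    · simp only [Pi.sub_apply, barf]
      rw [div_div_cancel₀ (S.q_ne i)]
      ring
  have hx : x ∈ Ω i := by
    by_contra hx
    apply hne
    rw [hn i x hx, hn i _ (by rwa [S.bar_iff])]
  obtain ⟨σ, τ, hστ, hσ⟩ := hprj i x hx
  have ht1 : Tors Ω (dd σ τ n) := S.tors_sub (hrel σ hσ) (S.tors_act τ (hrel σ hσ))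
  have ht2 : Tors Ω (barf q (dd σ τ n)) := by
    obtain ⟨t, ht, h⟩ := ht1
    refine ⟨t, ht, ?_⟩
    rw [S.val_barf _ (S.sum_dd σ τ n), inv_pow, h, inv_one]
  have ht : Tors Ω (dd σ τ (n - barf q n)) := by
    rw [dd_sub, ← barf_dd]
    exact S.tors_sub ht1 ht2
  have h0 := S.eq_zero (fun i x hx => by
    obtain ⟨σ, τ, h, -⟩ := hprj i x hx
    exact ⟨σ, τ, h⟩) hdiff _ _ (S.odd_dd σ τ hsub) ht rfl
  have h1 := congrFun (congrFun h0 i) x
  rw [dd_apply hστ hsub] at h1
  simp only [Pi.sub_apply, barf, Pi.zero_apply] at h1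
  unfold ee at h1
  rw [if_pos rfl, mul_one] at h1
  apply hne
  omega

/-- The product of the list. -/
lemma Sys.val_count (S : Sys q Ω) [BEq (I × L)] [LawfulBEq (I × L)] (l : List (I × L))
    (hl : ∀ x ∈ l, x.2 ∈ Ω x.1) :
    val Ω (fun i x => ((l.count (i, x) : ℕ) : ℤ)) = (l.map fun x => x.2).prod := by
  classical
  induction l with
  | nil =>
    unfold val
    simp
  | cons a l ih =>
    rw [List.map_cons, List.prod_cons, ← ih fun x hx => hl x (List.mem_cons_of_mem a hx)]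
    have ha := hl a List.mem_cons_self
    change (∏ i, ∏ x ∈ Ω i, x ^ (((a :: l).count (i, x) : ℕ) : ℤ)) =
      a.2 * ∏ i, ∏ x ∈ Ω i, x ^ ((l.count (i, x) : ℕ) : ℤ)
    rw [← Finset.mul_prod_erase _ (fun i => ∏ x ∈ Ω i, x ^ (((a :: l).count (i, x) : ℕ) : ℤ))
        (Finset.mem_univ a.1),
      ← Finset.mul_prod_erase _ (fun i => ∏ x ∈ Ω i, x ^ ((l.count (i, x) : ℕ) : ℤ))
        (Finset.mem_univ a.1), ← mul_assoc]
    congr 1
    · rw [← Finset.mul_prod_erase _ (fun x => x ^ (((a :: l).count (a.1, x) : ℕ) : ℤ)) ha,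
        ← Finset.mul_prod_erase _ (fun x => x ^ ((l.count (a.1, x) : ℕ) : ℤ)) ha, ← mul_assoc]
      congr 1
      · rw [show ((a.1, a.2) : I × L) = a from rfl, List.count_cons_self]
        push_cast
        rw [zpow_add₀ (S.ne_zero _ _ ha), zpow_one, mul_comm]
      · refine Finset.prod_congr rfl fun x hx => ?_
        rw [List.count_cons_of_ne]
        intro h
        exact Finset.ne_of_mem_erase hx (congrArg Prod.snd h).symm
    · refine Finset.prod_congr rfl fun i hi => Finset.prod_congr rfl fun x _ => ?_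
      rw [List.count_cons_of_ne]
      intro h
      exact Finset.ne_of_mem_erase hi (congrArg Prod.fst h).symm

end Bar

/-- **The relations are balanced.** -/
theorem bal3 {I : Type} [Fintype I] {q : I → ℕ} {h : I → ℤ[X]} {R : ℤ[X]} (hq : ∀ i, q i ≠ 0)
    (hm : ∀ i, (h i).Monic)
    (L : Type) [Field L] [NumberField L] [IsGalois ℚ L] (j : L →+* ℂ)
    (hL : ∀ i, ∀ z : ℂ, aeval z (weil (q i) (h i)) = 0 → ∃ x : L, j x = z)
    (hLR : ∀ z : ℂ, aeval z R = 0 → ∃ x : L, j x = z)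
    {Ω : I → Finset L} (S : Sys q Ω) (hΩ : ∀ i x, x ∈ Ω i ↔ aeval x (weil (q i) (h i)) = 0)
    [DecidableEq L]
    (hprj : ∀ i, ∀ x ∈ Ω i, ∃ σ τ, IsPrj (q i) (Ω i) x σ τ ∧
      ∀ β : L, aeval β R = 0 → σ β = β)
    (hdiff : ∀ i j, i ≠ j → ∃ ρ : L ≃ₐ[ℚ] L,
      ¬ ((∀ x ∈ Ω i, ρ x = x) ↔ (∀ x ∈ Ω j, ρ x = x)))
    (l : List (I × ℂ)) (hl : ∀ x ∈ l, aeval x.2 (weil (q x.1) (h x.1)) = 0) (t : ℕ) (ht : 0 < t)
    (ν : ℂ) (hν : ν ∈ Submonoid.closure {z : ℂ | aeval z R = 0}) (c : ℕ) (hc : 0 < c)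
    (hprod : (l.map fun x => x.2 ^ t).prod * ν = (c : ℂ)) (i : I) (z : ℂ)
    [BEq (I × ℂ)] [LawfulBEq (I × ℂ)] : l.count (i, z) = l.count (i, (q i : ℂ) / z) := by
  classical
  by_cases hz0 : z = 0
  · rw [hz0, div_zero]
  have hqC : ((q i : ℕ) : ℂ) ≠ 0 := by exact_mod_cast hq i
  have hqL : ((q i : ℕ) : L) ≠ 0 := by exact_mod_cast hq i
  by_cases hz : aeval z (weil (q i) (h i)) = 0
  swap
  · have h1 : (i, z) ∉ l := by
      intro h1
      have h3 : aeval z (weil (q i) (h i)) = 0 := hl (i, z) h1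
      exact hz h3
    have h2 : (i, (q i : ℂ) / z) ∉ l := by
      intro h2
      have h3 : aeval ((q i : ℂ) / z) (weil (q i) (h i)) = 0 := hl (i, (q i : ℂ) / z) h2
      have h4 := root_conj (hq i) (hm i) h3
      rw [div_div_cancel₀ hqC] at h4
      exact hz h4
    exact (List.count_eq_zero.2 h1).trans (List.count_eq_zero.2 h2).symm
  -- everything in `L`
  obtain ⟨l', rfl, hl'⟩ : ∃ l' : List (I × L), l'.map (Prod.map id j) = l ∧
      ∀ x ∈ l', aeval x.2 (weil (q x.1) (h x.1)) = 0 := by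
    clear hprod
    induction l with
    | nil => exact ⟨[], rfl, by simp⟩
    | cons a T ih =>
      obtain ⟨T', h1, h2⟩ := ih fun z hz => hl z (List.mem_cons_of_mem a hz)
      have h3 := hl a List.mem_cons_self
      obtain ⟨x, hx⟩ := hL a.1 a.2 h3
      refine ⟨(a.1, x) :: T', ?_, ?_⟩
      · rw [List.map_cons, h1]
        congr 1
        exact Prod.ext rfl hx
      · intro y hy
        rcases List.mem_cons.1 hy with e | e
        · rw [e]
          exact aeval_down j _ x (by rw [hx]; exact h3)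
        · exact h2 y e
  obtain ⟨ν', rfl, hν'⟩ : ∃ ν' : L, j ν' = ν ∧ ν' ∈ Submonoid.closure {x : L | aeval x R = 0} := by
    clear hprod
    induction hν using Submonoid.closure_induction with
    | mem x hx =>
      obtain ⟨y, hy⟩ := hLR x hx
      exact ⟨y, hy, Submonoid.subset_closure (aeval_down j _ y (by rw [hy]; exact hx))⟩
    | one => exact ⟨1, map_one j, one_mem _⟩
    | mul x y _ _ h1 h2 =>
      obtain ⟨a, ha, ha'⟩ := h1
      obtain ⟨b, hb, hb'⟩ := h2
      exact ⟨a * b, by rw [map_mul, ha, hb], mul_mem ha' hb'⟩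
  obtain ⟨α, rfl⟩ := hL i z hz
  have hinj : Function.Injective (Prod.map id j : I × L → I × ℂ) :=
    Function.Injective.prodMap Function.injective_id j.injective
  have hqj : (q i : ℂ) / j α = j (q i / α) := by rw [map_div₀, map_natCast]
  rw [hqj]
  refine count_transfer (Prod.map id j) hinj l' (i, α) (i, (q i : L) / α) ?_
  set P : L := (l'.map fun x => x.2).prod with hP
  have hPe : P ^ t * ν' = (c : L) := by
    apply j.injective
    have e1 : ∀ k : List (I × L), ((k.map (Prod.map id j)).map fun x : I × ℂ => x.2 ^ t).prod =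
        (j (k.map fun x => x.2).prod) ^ t := by
      intro k
      induction k with
      | nil => simp
      | cons a k ih =>
        rw [List.map_cons, List.map_cons, List.prod_cons, ih, List.map_cons, List.prod_cons,
          map_mul, mul_pow]
        rfl
    rw [map_mul, map_pow, map_natCast, ← hprod, hP, e1]
  have hc0 : ((c : ℕ) : L) ≠ 0 := by
    have : c ≠ 0 := hc.ne'
    exact_mod_cast this
  have hν0 : ν' ≠ 0 := by
    intro h0
    rw [h0, mul_zero] at hPe
    exact hc0 hPe.symm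
  have hPt : P ^ t ≠ 0 := by
    intro h0
    rw [h0, zero_mul] at hPe
    exact hc0 hPe.symm
  set n : I → L → ℤ := fun i x => ((l'.count (i, x) : ℕ) : ℤ) with hn
  have hval : val Ω n = P := S.val_count l' fun x hx => (hΩ _ _).2 (hl' x hx)
  have hrel : ∀ σ : L ≃ₐ[ℚ] L, (∀ β : L, aeval β R = 0 → σ β = β) → Tors Ω (n - act σ n) := by
    intro σ s5
    have hσν : σ ν' = ν' := by
      have hall : ∀ y ∈ Submonoid.closure {x : L | aeval x R = 0}, σ y = y := by
        intro y hy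
        induction hy using Submonoid.closure_induction with
        | mem x hx => exact s5 x hx
        | one => exact map_one σ
        | mul x y _ _ h1 h2 => rw [map_mul, h1, h2]
      exact hall ν' hν'
    have hσP : (σ P) ^ t = P ^ t := by
      have h1 := congrArg σ hPe
      rw [map_mul, map_pow, hσν, map_natCast, ← hPe] at h1
      exact mul_right_cancel₀ hν0 h1
    refine ⟨t, ht, ?_⟩
    rw [S.val_sub, S.val_act, hval, div_pow, hσP, div_self hPt]
  have hev := S.even_of_rel (fun σ => ∀ β : L, aeval β R = 0 → σ β = β) hprj hdiff n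
    (by
      intro i x hx
      rw [hn]
      have h1 : (i, x) ∉ l' := by
        intro h1
        exact hx ((hΩ i x).2 (hl' (i, x) h1))
      simp only
      rw [List.count_eq_zero.2 h1]
      rfl) hrel i α
  rw [hn] at hev
  simp only at hev
  exact_mod_cast hev

end Pool.Agent.V8H88.UN
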