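import Pool.Agent.V8H88.UN.Pow
import Pool.Agent.W458.MF.Geo3

/-!
# Extension of the base field of a piece
-/

set_option autoImplicit false

open CategoryTheory AlgebraicGeometry Polynomial

universe u v

namespace Pool.Agent.V8H88.UN

open Pool.Agent.H914 Pool.Agent.W534 Pool.Agent.W521.Frob Pool.Agent.W458.MF VarClass Obj
  WeilCohomology

/-- The characteristic polynomial of a power of an endomorphism. -/
theorem charpoly_pow {K V : Type*} [Field K] [IsAlgClosed K] [AddCommGroup V] [Module K V]
    [Module.Finite K V] (f : V →ₗ[K] V) (c : ℕ) :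
    (f ^ c).charpoly = (f.charpoly.roots.map fun α => X - C (α ^ c)).prod := by
  classical
  let b := Module.finBasis K V
  rw [← LinearMap.charpoly_toMatrix (f ^ c) b, ← LinearMap.charpoly_toMatrix f b,
    ← LinearMap.toMatrix_pow b]
  have h1 := charpoly_aeval (LinearMap.toMatrix b b f) (X ^ c)
  rw [map_pow, aeval_X] at h1
  rw [h1]
  congr 1
  refine Multiset.map_congr rfl fun α _ => ?_
  rw [eval_pow, eval_X]

section

variable {k : Type u} [Field k] {𝒱 : VarClass k} {ops : CycleOps 𝒱}
  {W : WeilCohomology.{u, v} ops} {Y : 𝒱.Obj} {p : ℕ} {Φ : FrobSystem W p}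

lemma iter_add {X : 𝒱.Obj} (f : X ⟶ X) (a b : ℕ) : W534.iter f (a + b) =
    W534.iter f a ≫ W534.iter f b := by
  induction b with
  | zero =>
    rw [add_zero]
    exact (Category.comp_id _).symm
  | succ b ih =>
    rw [← add_assoc]
    change W534.iter f (a + b) ≫ f = W534.iter f a ≫ (W534.iter f b ≫ f)
    rw [ih, Category.assoc]

lemma iter_iter {X : 𝒱.Obj} (f : X ⟶ X) (c a : ℕ) : W534.iter (W534.iter f c) a =
    W534.iter f (c * a) := by
  induction a with
  | zero => rfl
  | succ a ih =>
    change W534.iter (W534.iter f c) a ≫ W534.iter f c = _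
    rw [ih, ← iter_add, Nat.mul_succ]

/-- The piece over the extension of degree `c` of the base field. -/
noncomputable def ext (P : Piece W Y) (q : ℕ) (hm : P.pol.Monic) (c : ℕ) : Piece W Y where
  obj := P.obj
  mor := P.mor
  fr := W534.iter P.fr c
  sub := P.sub
  pol := powPoly q P.pol hm c

theorem isOver_ext [IsAlgClosed W.K] [CharZero W.K] {P : Piece W Y} {m : ℕ} (hP : P.IsOver Φ m)
    {c : ℕ} (hc : 0 < c) :
    (ext P (p ^ (P.obj.dim * m)) hP.monic c).IsOver Φ (m * c) := by
  refine ⟨?_, hP.sub_le, hP.generated, powPoly_monic _ _ hP.monic _, ?_, ?_⟩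
  · obtain ⟨a, b, ha, hb, hab, h⟩ := hP.frobenius
    refine ⟨a, b * c, ha, Nat.mul_pos hb hc, ?_, ?_⟩
    · change a * (m * c) = b * c * Φ.e P.obj
      rw [← mul_assoc, hab]
      ring
    · change W534.iter (W534.iter P.fr c) a = W534.iter (Φ.Fr P.obj) (b * c)
      rw [iter_iter, mul_comm c a, ← iter_iter, ← iter_iter, h]
  · change 0 < (powPoly _ P.pol hP.monic c).natDegree
    rw [powPoly_natDegree]
    exact hP.degree_pos
  · have h1 := hP.charpoly
    have hinv : ∀ x ∈ P.sub, (W.map P.fr).toLinearMap x ∈ P.sub := by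
      by_contra hno
      unfold Piece.charpoly charpolyOn at h1
      rw [dif_neg hno] at h1
      have h2 := congrArg natDegree h1
      rw [natDegree_one, (weil_monic _ hP.monic).natDegree_map,
        weil_natDegree _ hP.monic] at h2
      have := hP.degree_pos
      omega
    have e0 : (W.map (W534.iter P.fr c)).toLinearMap = (W.map P.fr).toLinearMap ^ c := by
      apply LinearMap.ext
      intro x
      rw [Module.End.pow_apply]
      exact W534.map_iter P.fr c x
    have hinv' : ∀ x ∈ P.sub, (W.map (W534.iter P.fr c)).toLinearMap x ∈ P.sub := by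
      rw [e0]
      intro x hx
      exact Module.End.pow_apply_mem_of_forall_mem c hinv x hx
    have e1 : (LinearMap.restrict _ hinv') = (LinearMap.restrict _ hinv) ^ c := by
      rw [Module.End.pow_restrict c hinv (by rw [← e0]; exact hinv')]
      apply LinearMap.ext
      intro x
      apply Subtype.ext
      rw [LinearMap.coe_restrict_apply, LinearMap.coe_restrict_apply, e0]
    unfold Piece.charpoly charpolyOn at h1
    rw [dif_pos hinv] at h1
    have e2 : (ext P (p ^ (P.obj.dim * m)) hP.monic c).charpoly =
        (LinearMap.restrict (W.map (W534.iter P.fr c)).toLinearMap hinv').charpoly := by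
      unfold Piece.charpoly charpolyOn
      exact dif_pos hinv'
    rw [e2, e1, charpoly_pow, h1]
    change _ = (weil (p ^ (P.obj.dim * (m * c))) (powPoly _ P.pol hP.monic c)).map _
    rw [← mul_assoc, pow_mul p (P.obj.dim * m) c, weil_powPoly]

end

end Pool.Agent.V8H88.UN
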