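import Mathlib

/-!
# Joint independence of multiplicative systems by minimal supports

`Ω i` are finite sets of elements of the Galois extension `L` of `ℚ`, stable under the Galois group,
which acts transitively on them, and under `x ↦ q i / x`. The functions `c i` on `Ω i` which are
odd, that is `c i (q i / x) = - c i x`, and for which the product of the `x ^ (c i x)` is a root of
unity, are zero if the pointwise stabilizers of the sets `Ω i` are pairwise different and if there
are automorphisms `σ`, `τ` such that `(1 - τ) (1 - σ)` is a multiple of the projection onto the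
coordinate of a given element.
-/

set_option autoImplicit false
set_option linter.unusedSectionVars false

namespace Pool.Agent.V8H88.UN

open Finset

section Core

variable {L : Type} [Field L] [Algebra ℚ L] {I : Type} [Fintype I]

/-- The function which is `1` at `x`, `-1` at `q / x` and zero elsewhere. -/
noncomputable def ee [DecidableEq L] (q : ℕ) (x : L) : L → ℤ :=
  fun y => if y = x then 1 else if y = (q : L) / x then -1 else 0

/-- The operation of an automorphism. -/
def act (σ : L ≃ₐ[ℚ] L) (c : I → L → ℤ) : I → L → ℤ := fun i x => c i (σ.symm x)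

/-- The product. -/
noncomputable def val (Ω : I → Finset L) (c : I → L → ℤ) : L := ∏ i, ∏ x ∈ Ω i, x ^ (c i x)

/-- The properties of the sets. -/
structure Sys (q : I → ℕ) (Ω : I → Finset L) : Prop where
  q_ne : ∀ i, (q i : L) ≠ 0
  ne_zero : ∀ i, ∀ x ∈ Ω i, x ≠ 0
  bar : ∀ i, ∀ x ∈ Ω i, (q i : L) / x ∈ Ω i
  stab : ∀ i (σ : L ≃ₐ[ℚ] L), ∀ x ∈ Ω i, σ x ∈ Ω i
  trans : ∀ i, ∀ x ∈ Ω i, ∀ y ∈ Ω i, ∃ σ : L ≃ₐ[ℚ] L, σ x = y
  pow_ne : ∀ i, ∀ x ∈ Ω i, ∀ t : ℕ, 0 < t → (x ^ 2) ^ t ≠ (q i : L) ^ t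

/-- Odd functions. -/
structure Odd' (q : I → ℕ) (Ω : I → Finset L) (c : I → L → ℤ) : Prop where
  supp : ∀ i, ∀ x ∉ Ω i, c i x = 0
  odd : ∀ i, ∀ x ∈ Ω i, c i ((q i : L) / x) = - c i x

/-- The product is a root of unity. -/
def Tors (Ω : I → Finset L) (c : I → L → ℤ) : Prop := ∃ t : ℕ, 0 < t ∧ val Ω c ^ t = 1

variable {q : I → ℕ} {Ω : I → Finset L} (S : Sys q Ω)

include S

lemma Sys.stab_symm (i : I) (σ : L ≃ₐ[ℚ] L) (x : L) : σ.symm x ∈ Ω i ↔ x ∈ Ω i := by
  constructor
  · intro h
    have := S.stab i σ _ h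
    rwa [σ.apply_symm_apply] at this
  · exact S.stab i σ.symm x

lemma Sys.val_act (σ : L ≃ₐ[ℚ] L) (c : I → L → ℤ) : val Ω (act σ c) = σ (val Ω c) := by
  unfold val act
  rw [map_prod]
  refine Finset.prod_congr rfl fun i _ => ?_
  rw [map_prod]
  symm
  refine Finset.prod_bij (fun x _ => σ x) (fun x hx => S.stab i σ x hx)
    (fun x _ y _ h => σ.injective h) (fun x hx => ⟨σ.symm x, (S.stab_symm i σ x).2 hx,
      σ.apply_symm_apply x⟩) (fun x _ => ?_)
  rw [map_zpow₀, σ.symm_apply_apply]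

lemma Sys.val_ne (c : I → L → ℤ) : val Ω c ≠ 0 :=
  Finset.prod_ne_zero_iff.2 fun i _ => Finset.prod_ne_zero_iff.2 fun x hx =>
    zpow_ne_zero _ (S.ne_zero i x hx)

lemma Sys.val_sub (c d : I → L → ℤ) : val Ω (c - d) = val Ω c / val Ω d := by
  unfold val
  rw [← Finset.prod_div_distrib]
  refine Finset.prod_congr rfl fun i _ => ?_
  rw [← Finset.prod_div_distrib]
  refine Finset.prod_congr rfl fun x hx => ?_
  rw [Pi.sub_apply, Pi.sub_apply, zpow_sub₀ (S.ne_zero i x hx)]

lemma Sys.tors_act (σ : L ≃ₐ[ℚ] L) {c : I → L → ℤ} (h : Tors Ω c) : Tors Ω (act σ c) := by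
  obtain ⟨t, ht, h⟩ := h
  exact ⟨t, ht, by rw [S.val_act, ← map_pow, h, map_one]⟩

lemma Sys.tors_sub {c d : I → L → ℤ} (hc : Tors Ω c) (hd : Tors Ω d) : Tors Ω (c - d) := by
  obtain ⟨t, ht, hc⟩ := hc
  obtain ⟨s, hs, hd⟩ := hd
  refine ⟨t * s, Nat.mul_pos ht hs, ?_⟩
  rw [S.val_sub, div_pow, pow_mul, hc, one_pow, mul_comm t s, pow_mul, hd, one_pow, div_one]

lemma Sys.odd_act (σ : L ≃ₐ[ℚ] L) {c : I → L → ℤ} (h : Odd' q Ω c) : Odd' q Ω (act σ c) := by
  refine ⟨fun i x hx => h.supp i _ ?_, fun i x hx => ?_⟩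
  · rwa [S.stab_symm]
  · unfold act
    rw [map_div₀, map_natCast]
    exact h.odd i _ ((S.stab_symm i σ x).2 hx)

omit S in
lemma odd_sub {c d : I → L → ℤ} (hc : Odd' q Ω c) (hd : Odd' q Ω d) : Odd' q Ω (c - d) := by
  refine ⟨fun i x hx => ?_, fun i x hx => ?_⟩
  · simp only [Pi.sub_apply]
    rw [hc.supp i x hx, hd.supp i x hx, sub_zero]
  · simp only [Pi.sub_apply]
    rw [hc.odd i x hx, hd.odd i x hx]
    ring

/-- The operator `(1 - τ) (1 - σ)`. -/
def dd (σ τ : L ≃ₐ[ℚ] L) (c : I → L → ℤ) : I → L → ℤ :=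
  (c - act σ c) - act τ (c - act σ c)

lemma Sys.odd_dd (σ τ : L ≃ₐ[ℚ] L) {c : I → L → ℤ} (h : Odd' q Ω c) : Odd' q Ω (dd σ τ c) :=
  odd_sub (odd_sub h (S.odd_act σ h)) (S.odd_act τ (odd_sub h (S.odd_act σ h)))

lemma Sys.tors_dd (σ τ : L ≃ₐ[ℚ] L) {c : I → L → ℤ} (h : Tors Ω c) : Tors Ω (dd σ τ c) :=
  S.tors_sub (S.tors_sub h (S.tors_act σ h)) (S.tors_act τ (S.tors_sub h (S.tors_act σ h)))

omit S in
/-- The pair `σ`, `τ` is a projection to the coordinate of `x`. -/
def IsPrj [DecidableEq L] (q : ℕ) (Ω : Finset L) (x : L) (σ τ : L ≃ₐ[ℚ] L) : Prop :=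
  ∀ c : L → ℤ, (∀ y ∉ Ω, c y = 0) → (∀ y ∈ Ω, c ((q : L) / y) = - c y) →
    ∀ y, (c y - c (σ.symm y)) - (c (τ.symm y) - c (σ.symm (τ.symm y))) = 4 * c x * ee q x y

omit S in
lemma dd_apply [DecidableEq L] {i : I} {x : L} {σ τ : L ≃ₐ[ℚ] L} (h : IsPrj (q i) (Ω i) x σ τ)
    {c : I → L → ℤ} (hc : Odd' q Ω c) : dd σ τ c i = fun y => 4 * c i x * ee (q i) x y := by
  funext y
  rw [← h (c i) (hc.supp i) (hc.odd i) y]
  rfl

omit S in
/-- The support. -/
noncomputable def sup (c : I → L → ℤ) : Finset I :=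
  open Classical in Finset.univ.filter fun i => c i ≠ 0

omit S in
lemma mem_sup (c : I → L → ℤ) (i : I) : i ∈ sup c ↔ c i ≠ 0 := by
  unfold sup
  simp only [Finset.mem_filter, Finset.mem_univ, true_and]

lemma Sys.bar_ne {i : I} {x : L} (hx : x ∈ Ω i) : x ≠ (q i : L) / x := by
  intro h
  refine S.pow_ne i x hx 1 one_pos ?_
  rw [pow_one, pow_one, pow_two]
  nth_rewrite 1 [h]
  exact div_mul_cancel₀ _ (S.ne_zero i x hx)

/-- **The joint independence.** -/
theorem Sys.eq_zero [DecidableEq L] (hprj : ∀ i, ∀ x ∈ Ω i, ∃ σ τ, IsPrj (q i) (Ω i) x σ τ)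
    (hdiff : ∀ i j, i ≠ j → ∃ ρ : L ≃ₐ[ℚ] L,
      ¬ ((∀ x ∈ Ω i, ρ x = x) ↔ (∀ x ∈ Ω j, ρ x = x)))
    (n : ℕ) : ∀ c : I → L → ℤ, Odd' q Ω c → Tors Ω c → (sup c).card = n → c = 0 := by
  classical
  induction n using Nat.strong_induction_on with
  | _ n ih =>
    intro c hc ht hn
    by_contra hne
    -- smaller supports
    have hsmall : ∀ d : I → L → ℤ, Odd' q Ω d → Tors Ω d → sup d ⊆ sup c → (∃ i ∈ sup c, d i = 0) →
        d = 0 := by
      intro d hd hdt hsub hex
      obtain ⟨i, hi, hdi⟩ := hex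
      refine ih (sup d).card ?_ d hd hdt rfl
      rw [← hn]
      refine Finset.card_lt_card (Finset.ssubset_iff_subset_ne.2 ⟨hsub, fun h => ?_⟩)
      rw [← h, mem_sup] at hi
      exact hi hdi
    have hsupact : ∀ (σ : L ≃ₐ[ℚ] L) (d : I → L → ℤ), sup (act σ d) ⊆ sup d := by
      intro σ d i hi
      rw [mem_sup] at hi ⊢
      intro h
      apply hi
      funext x
      change d i (σ.symm x) = 0
      rw [h]
      rfl
    have hsupsub : ∀ (d e : I → L → ℤ), sup d ⊆ sup c → sup e ⊆ sup c → sup (d - e) ⊆ sup c := by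
      intro d e hd he i hi
      by_contra h
      have h1 : d i = 0 := by
        by_contra h1
        exact h (hd ((mem_sup d i).2 h1))
      have h2 : e i = 0 := by
        by_contra h1
        exact h (he ((mem_sup e i).2 h1))
      rw [mem_sup] at hi
      apply hi
      rw [Pi.sub_apply, h1, h2, sub_zero]
    -- one coordinate
    have hone : ∀ i ∈ sup c, ∃ (d : I → L → ℤ) (x : L) (a : ℤ), Odd' q Ω d ∧ Tors Ω d ∧
        sup d ⊆ sup c ∧ x ∈ Ω i ∧ a ≠ 0 ∧ d i = fun y => a * ee (q i) x y := by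
      intro i hi
      rw [mem_sup] at hi
      obtain ⟨x, hx⟩ : ∃ x, c i x ≠ 0 := by
        by_contra h
        push Not at h
        exact hi (funext h)
      have hxΩ : x ∈ Ω i := by
        by_contra h
        exact hx (hc.supp i x h)
      obtain ⟨σ, τ, hστ⟩ := hprj i x hxΩ
      refine ⟨dd σ τ c, x, 4 * c i x, S.odd_dd σ τ hc, S.tors_dd σ τ ht, ?_, hxΩ,
        mul_ne_zero (by norm_num) hx, dd_apply hστ hc⟩
      have h1 : sup (c - act σ c) ⊆ sup c := hsupsub _ _ (Finset.Subset.refl _) (hsupact σ c)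
      exact hsupsub _ _ h1 ((hsupact τ _).trans h1)
    have hee : ∀ (i : I) (x : L), x ∈ Ω i → ee (q i) x x = 1 := by
      intro i x _
      unfold ee
      rw [if_pos rfl]
    -- stabilizers
    have hstab : ∀ i ∈ sup c, ∀ j ∈ sup c, ∀ ρ : L ≃ₐ[ℚ] L, (∀ x ∈ Ω i, ρ x = x) →
        ∀ x ∈ Ω j, ρ x = x := by
      intro i hi j hj ρ hρ
      obtain ⟨d, x, a, hd, hdt, hdsup, hx, ha, hdi⟩ := hone i hi
      -- `ρ` fixes all transforms of `d`
      have hfix : ∀ η : L ≃ₐ[ℚ] L, act ρ (act η d) = act η d := by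
        intro η
        have h1 : act ρ (act η d) - act η d = 0 := by
          refine hsmall _ (odd_sub (S.odd_act ρ (S.odd_act η hd)) (S.odd_act η hd))
            (S.tors_sub (S.tors_act ρ (S.tors_act η hdt)) (S.tors_act η hdt))
            (hsupsub _ _ ((hsupact ρ _).trans ((hsupact η _).trans hdsup))
              ((hsupact η _).trans hdsup)) ⟨i, hi, ?_⟩
          funext y
          rw [Pi.sub_apply, Pi.sub_apply]
          change d i (η.symm (ρ.symm y)) - d i (η.symm y) = 0
          by_cases hy : y ∈ Ω i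
          · have h2 : ρ.symm y = y := by
              rw [AlgEquiv.symm_apply_eq]
              exact (hρ y hy).symm
            rw [h2, sub_self]
          · rw [hd.supp i _ (by rwa [S.stab_symm, S.stab_symm]),
              hd.supp i _ (by rwa [S.stab_symm]), sub_self]
        exact sub_eq_zero.1 h1
      -- `d j` is not zero
      have hdj : d j ≠ 0 := by
        intro h
        have h1 : d = 0 := hsmall d hd hdt hdsup ⟨j, hj, h⟩
        have h2 : d i x = 0 := by rw [h1]; rfl
        rw [hdi] at h2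
        simp only at h2
        rw [hee i x hx, mul_one] at h2
        exact ha h2
      obtain ⟨y, hy⟩ : ∃ y, d j y ≠ 0 := by
        by_contra h
        push Not at h
        exact hdj (funext h)
      have hyΩ : y ∈ Ω j := by
        by_contra h
        exact hy (hd.supp j y h)
      intro z hz
      obtain ⟨η, hη⟩ := S.trans j y hyΩ z hz
      set f : I → L → ℤ := act η d with hf
      have hfodd : Odd' q Ω f := S.odd_act η hd
      have hfz : f j z ≠ 0 := by
        change d j (η.symm z) ≠ 0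
        rw [← hη, η.symm_apply_apply]
        exact hy
      obtain ⟨σ, τ, hστ⟩ := hprj j z hz
      have hcomp : ∀ (α β : L ≃ₐ[ℚ] L) (e : I → L → ℤ), act α (act β e) = act (β.trans α) e := by
        intro α β e
        rfl
      have h1 : act ρ (dd σ τ f) = dd σ τ f := by
        have e0 : act ρ f = f := hfix η
        have e1 : act ρ (act σ f) = act σ f := hfix (η.trans σ)
        have e2 : act ρ (act τ f) = act τ f := hfix (η.trans τ)
        have e3 : act ρ (act τ (act σ f)) = act τ (act σ f) := hfix ((η.trans σ).trans τ)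
        have hlin : ∀ (α : L ≃ₐ[ℚ] L) (e e' : I → L → ℤ), act α (e - e') = act α e - act α e' :=
          fun α e e' => rfl
        unfold dd
        rw [hlin, hlin, hlin τ, hlin ρ, e0, e1, e2, e3]
      have h2 := congrFun (congrFun h1 j) (ρ z)
      change dd σ τ f j (ρ.symm (ρ z)) = dd σ τ f j (ρ z) at h2
      rw [ρ.symm_apply_apply, dd_apply hστ hfodd] at h2
      simp only at h2
      rw [hee j z hz, mul_one] at h2
      have h3 : ee (q j) z (ρ z) = 1 := by
        have h4 : (4 * f j z) ≠ 0 := mul_ne_zero (by norm_num) hfz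
        exact mul_left_cancel₀ h4 (by rw [mul_one]; exact h2.symm)
      unfold ee at h3
      by_contra hne'
      rw [if_neg hne'] at h3
      by_cases h5 : ρ z = (q j : L) / z
      · rw [if_pos h5] at h3
        omega
      · rw [if_neg h5] at h3
        omega
    obtain ⟨i, hi⟩ : ∃ i, i ∈ sup c := by
      by_contra h
      push Not at h
      apply hne
      funext i
      by_contra h1
      exact h i ((mem_sup c i).2 h1)
    by_cases hsingle : ∃ j ∈ sup c, j ≠ i
    · obtain ⟨j, hj, hji⟩ := hsingle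
      obtain ⟨ρ, hρ⟩ := hdiff j i hji
      exact hρ ⟨hstab j hj i hi ρ, hstab i hi j hj ρ⟩
    · push Not at hsingle
      obtain ⟨d, x, a, hd, ⟨t, ht0, hdt⟩, hdsup, hx, ha, hdi⟩ := hone i hi
      have hother : ∀ j, j ≠ i → d j = 0 := by
        intro j hj
        by_contra h
        exact hj (hsingle j (hdsup ((mem_sup d j).2 h)))
      have hval : val Ω d = (x / ((q i : L) / x)) ^ a := by
        unfold val
        rw [Finset.prod_eq_single i]
        · rw [hdi]
          have hbar := S.bar i x hx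
          have hne2 := S.bar_ne hx
          rw [← Finset.mul_prod_erase _ _ hx, ← Finset.mul_prod_erase _ _
            (Finset.mem_erase.2 ⟨Ne.symm hne2, hbar⟩), Finset.prod_eq_one]
          · simp only
            unfold ee
            rw [if_pos rfl, if_neg (Ne.symm hne2), if_pos rfl, mul_one, mul_one, mul_neg, mul_one,
              zpow_neg, ← div_eq_mul_inv, ← div_zpow]
          · intro y hy
            rw [Finset.mem_erase, Finset.mem_erase] at hy
            simp only
            unfold ee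
            rw [if_neg hy.2.1, if_neg hy.1, mul_zero, zpow_zero]
        · intro j _ hj
          rw [hother j hj]
          refine Finset.prod_eq_one fun y _ => ?_
          rw [Pi.zero_apply, zpow_zero]
        · intro h
          exact absurd (Finset.mem_univ i) h
      -- a root of unity
      have hx0 := S.ne_zero i x hx
      have hq0 := S.q_ne i
      have h5 : x / ((q i : L) / x) = x ^ 2 / (q i : L) := by
        field_simp
      rw [hval, h5] at hdt
      have h6 : (x ^ 2 / (q i : L)) ^ (a.natAbs * t) = 1 := by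
        rcases Int.natAbs_eq a with h7 | h7
        · rw [h7, zpow_natCast, ← pow_mul] at hdt
          exact hdt
        · rw [h7, zpow_neg, zpow_natCast, inv_pow, ← pow_mul, inv_eq_one] at hdt
          exact hdt
      refine S.pow_ne i x hx (a.natAbs * t) (Nat.mul_pos (Int.natAbs_pos.2 ha) ht0) ?_
      rw [div_pow, div_eq_one_iff_eq (pow_ne_zero _ hq0)] at h6
      exact h6

end Core

end Pool.Agent.V8H88.UN
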