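import Pool.Agent.V8H88.RM.Defs
import Pool.Agent.H914R2.DDefs

/-!
# Uniform results for the members of families: definitions
-/

open CategoryTheory AlgebraicGeometry Polynomial

universe u v

namespace Pool.Agent.V8H88.UN

open Pool.Agent.H914 Pool.Agent.W534 Pool.Agent.W521.Frob Pool.Agent.W458.MF VarClass Obj
  WeilCohomology

/-- The proportion of the elements of `B m` in the finite set `S m` tends to zero. -/
def Negligible (S : ℕ → Type) (B : ∀ m, Set (S m)) : Prop :=
  ∀ ε : ℝ, 0 < ε → ∃ m₀ : ℕ, ∀ m ≥ m₀, ((B m).ncard : ℝ) ≤ ε * Nat.card (S m)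

variable {k : Type u} [Field k] {𝒱 : VarClass k} {ops : CycleOps 𝒱}
  {W : WeilCohomology.{u, v} ops} {Y : 𝒱.Obj}

/-- The field generated by the complex roots of the characteristic polynomial
`x ^ g * pol (x + q / x)`, `q = p ^ (dim obj * m)`, of Frobenius on the subspace `sub` of a piece
over the field with `p ^ m` elements. -/
noncomputable def field (p : ℕ) (x : Piece W Y × ℕ) : IntermediateField ℚ ℂ :=
  IntermediateField.adjoin ℚ ((weil (p ^ (x.1.obj.dim * x.2)) x.1.pol).rootSet ℂ)

/-- There is one exceptional set `B i m` of members of density zero for each of the families, such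
that the property `P` holds for all products of copies of `Y` and of members of the families over
any of the fields with `p ^ m` elements, if the fields of these members are pairwise different;
and the pairs of members with the same field have density zero. -/
def Uniform {I : Type} (F : I → Family W Y) (p : ℕ) (P : 𝒱.Obj → Prop) : Prop :=
  (∃ B : ∀ i m, Set ((F i).S m), (∀ i, Negligible (F i).S (B i)) ∧
    ∀ T : Set (Piece W Y × ℕ), (∀ x ∈ T, ∃ i, ∃ s ∉ B i x.2, x.1 = (F i).member x.2 s) →
      T.InjOn (field p) → ∀ Z, IsProductOf ({Y} ∪ (fun x => x.1.obj) '' T) Z → P Z) ∧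
  ∀ i j, Negligible (fun m => (F i).S m × (F j).S m) fun m =>
    {s | field p ((F i).member m s.1, m) = field p ((F j).member m s.2, m)}

end Pool.Agent.V8H88.UN
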