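import Pool.Agent.W521.Frob

/-!
# The polynomial with the powers of the roots
-/

set_option autoImplicit false

open Polynomial

namespace Pool.Agent.V8H88.UN

open Pool.Agent.W521.Frob

section Mat

variable {K : Type*} [Field K] [IsAlgClosed K] {n : Type*} [Fintype n] [DecidableEq n]

lemma det_aeval_X_sub (A : Matrix n n K) (r : K) :
    (aeval A (X - C r)).det = (A.charpoly.roots.map fun α => α - r).prod := by
  have h1 : aeval A (X - C r) = -(Matrix.scalar n r - A) := by
    rw [map_sub, aeval_X, aeval_C, neg_sub]
    rfl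
  have hcard : A.charpoly.roots.card = Fintype.card n := by
    rw [splits_iff_card_roots.1 (IsAlgClosed.splits A.charpoly), Matrix.charpoly_natDegree_eq_dim]
  have h2 := (IsAlgClosed.splits A.charpoly).eq_prod_roots_of_monic (Matrix.charpoly_monic A)
  rw [h1, Matrix.det_neg, ← Matrix.eval_charpoly]
  nth_rewrite 1 [h2]
  rw [eval_multiset_prod, Multiset.map_map, ← hcard]
  have h3 : ∀ s : Multiset K, (-1) ^ s.card *
      (s.map (eval r ∘ fun a => X - C a)).prod = (s.map fun α => α - r).prod := by
    intro s
    induction s using Multiset.induction_on with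
    | empty => simp
    | cons a s ih =>
      rw [Multiset.card_cons, Multiset.map_cons, Multiset.prod_cons, Multiset.map_cons,
        Multiset.prod_cons, ← ih, Function.comp_apply, eval_sub, eval_X, eval_C]
      ring
  exact h3 _

theorem det_aeval (A : Matrix n n K) (f : K[X]) :
    (aeval A f).det = (A.charpoly.roots.map fun α => f.eval α).prod := by
  have hcard : A.charpoly.roots.card = Fintype.card n := by
    rw [splits_iff_card_roots.1 (IsAlgClosed.splits A.charpoly), Matrix.charpoly_natDegree_eq_dim]
  have h1 := (IsAlgClosed.splits f).eq_prod_roots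
  have h2 : ∀ s : Multiset K, (aeval A (s.map fun a => X - C a).prod).det =
      (A.charpoly.roots.map fun α => ((s.map fun a => X - C a).prod).eval α).prod := by
    intro s
    induction s using Multiset.induction_on with
    | empty => simp
    | cons a s ih =>
      rw [Multiset.map_cons, Multiset.prod_cons, map_mul, Matrix.det_mul, ih, det_aeval_X_sub,
        ← Multiset.prod_map_mul]
      congr 1
      refine Multiset.map_congr rfl fun α _ => ?_
      rw [eval_mul, eval_sub, eval_X, eval_C]
  rw [h1, map_mul, Matrix.det_mul, h2, aeval_C]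
  have h3 : (algebraMap K (Matrix n n K) f.leadingCoeff).det =
      (A.charpoly.roots.map fun _ => f.leadingCoeff).prod := by
    rw [Multiset.map_const', Multiset.prod_replicate, hcard, Matrix.algebraMap_eq_diagonal,
      Matrix.det_diagonal]
    simp
  rw [h3, ← Multiset.prod_map_mul]
  congr 1
  refine Multiset.map_congr rfl fun α _ => ?_
  rw [eval_mul, eval_C]

theorem charpoly_aeval (A : Matrix n n K) (f : K[X]) :
    (aeval A f).charpoly = (A.charpoly.roots.map fun α => X - C (f.eval α)).prod := by
  apply Polynomial.funext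
  intro x
  rw [Matrix.eval_charpoly, eval_multiset_prod, Multiset.map_map]
  have h1 : Matrix.scalar n x - aeval A f = aeval A (C x - f) := by
    rw [map_sub, aeval_C]
    rfl
  rw [h1, det_aeval]
  congr 1
  refine Multiset.map_congr rfl fun α _ => ?_
  rw [Function.comp_apply, eval_sub, eval_sub, eval_X, eval_C, eval_C]

end Mat

/-- An integral matrix with a given characteristic polynomial. -/
theorem exists_mat (h : ℤ[X]) (hm : h.Monic) : ∃ (n : ℕ) (M : Matrix (Fin n) (Fin n) ℤ),
    M.charpoly = h := by
  have hf := AdjoinRoot.powerBasis' hm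
  let pb := AdjoinRoot.powerBasis' hm
  refine ⟨pb.dim, Algebra.leftMulMatrix pb.basis pb.gen, ?_⟩
  rw [charpoly_leftMulMatrix]
  symm
  apply minpoly.unique' ℤ pb.gen hm
  · change aeval (AdjoinRoot.root h) h = 0
    rw [AdjoinRoot.aeval_eq, AdjoinRoot.mk_self]
  · intro q hq
    by_cases hq0 : q = 0
    · exact Or.inl hq0
    · right
      change aeval (AdjoinRoot.root h) q ≠ 0
      rw [AdjoinRoot.aeval_eq]
      exact AdjoinRoot.mk_ne_zero_of_degree_lt hm hq0 hq

lemma dickson_eval {A : Type*} [CommRing A] (q : ℕ) (a b : A) (hab : a * b = q) (n : ℕ) :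
    ((dickson 1 (q : ℤ) n).map (Int.castRingHom A)).eval (a + b) = a ^ n + b ^ n := by
  induction n using Nat.strong_induction_on with
  | _ n ih =>
    match n with
    | 0 =>
      rw [dickson_zero, pow_zero, pow_zero]
      simp
      norm_num
    | 1 => simp
    | n + 2 =>
      have h1 := ih (n + 1) (by omega)
      have h0 := ih n (by omega)
      rw [dickson_add_two, Polynomial.map_sub, Polynomial.map_mul, Polynomial.map_mul, map_X,
        map_C, eval_sub, eval_mul, eval_mul, eval_X, eval_C, h1, h0]
      have h2 : (Int.castRingHom A) (q : ℤ) = (q : A) := by simp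
      rw [h2, ← hab]
      ring

section Weil

variable {K : Type*} [Field K] [CharZero K] [IsAlgClosed K]

lemma exists_ab (q : ℕ) (θ : K) : ∃ a b : K, a + b = θ ∧ a * b = q := by
  obtain ⟨a, ha⟩ := IsAlgClosed.exists_root (X ^ 2 - C θ * X + C (q : K)) (by
    have : (X ^ 2 - C θ * X + C (q : K)).natDegree = 2 := by compute_degree!
    rw [degree_eq_natDegree (by intro h0; rw [h0] at this; simp at this), this]
    norm_num)
  refine ⟨a, θ - a, by ring, ?_⟩
  rw [IsRoot.def] at ha
  simp only [eval_add, eval_sub, eval_pow, eval_X, eval_mul, eval_C] at ha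
  linear_combination -ha

omit [CharZero K] in
/-- The factorization of the polynomial. -/
theorem weil_map (q : ℕ) (h : ℤ[X]) (hm : h.Monic) :
    (weil q h).map (Int.castRingHom K) =
      ((h.map (Int.castRingHom K)).roots.map fun θ => X ^ 2 - C θ * X + C (q : K)).prod := by
  apply Polynomial.eq_of_infinite_eval_eq
  refine Set.Infinite.mono (s := {x : K | x ≠ 0}) ?_ (Set.Finite.infinite_compl
    (Set.finite_singleton (0 : K)))
  intro α hα
  have hα' : α ≠ 0 := hα
  rw [Set.mem_ofPred_eq, eval_map, eval_multiset_prod, Multiset.map_map]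
  have h1 : eval₂ (Int.castRingHom K) α (weil q h) = aeval α (weil q h) := rfl
  rw [h1, aeval_weil q h α (α + q / α) (by field_simp)]
  have h2 : aeval (α + q / α) h = (h.map (Int.castRingHom K)).eval (α + q / α) := by
    rw [eval_map]
    rfl
  have hmm : (h.map (Int.castRingHom K)).Monic := hm.map _
  have h3 := (IsAlgClosed.splits (h.map (Int.castRingHom K))).eq_prod_roots_of_monic hmm
  have hcard : (h.map (Int.castRingHom K)).roots.card = h.natDegree := by
    rw [splits_iff_card_roots.1 (IsAlgClosed.splits (h.map (Int.castRingHom K))),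
      hm.natDegree_map]
  rw [h2]
  nth_rewrite 1 [h3]
  rw [eval_multiset_prod, Multiset.map_map, ← hcard]
  have h4 : ∀ s : Multiset K, α ^ s.card *
      (s.map (eval (α + (q : K) / α) ∘ fun a => X - C a)).prod =
      (s.map (eval α ∘ fun θ => X ^ 2 - C θ * X + C (q : K))).prod := by
    intro s
    induction s using Multiset.induction_on with
    | empty => simp
    | cons a s ih =>
      rw [Multiset.card_cons, Multiset.map_cons, Multiset.prod_cons, Multiset.map_cons,
        Multiset.prod_cons, ← ih, Function.comp_apply, Function.comp_apply, eval_sub, eval_X,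
        eval_C, eval_add, eval_sub, eval_pow, eval_X, eval_mul, eval_C, eval_X, eval_C]
      field_simp
      ring
  exact h4 _

/-- The polynomial with the powers of the roots. -/
noncomputable def powPoly (q : ℕ) (h : ℤ[X]) (hm : h.Monic) (c : ℕ) : ℤ[X] :=
  (aeval (exists_mat h hm).choose_spec.choose (dickson 1 (q : ℤ) c)).charpoly

omit [CharZero K] [IsAlgClosed K] in
theorem powPoly_monic (q : ℕ) (h : ℤ[X]) (hm : h.Monic) (c : ℕ) : (powPoly q h hm c).Monic :=
  Matrix.charpoly_monic _

omit [CharZero K] [IsAlgClosed K] in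
theorem powPoly_natDegree (q : ℕ) (h : ℤ[X]) (hm : h.Monic) (c : ℕ) :
    (powPoly q h hm c).natDegree = h.natDegree := by
  unfold powPoly
  rw [Matrix.charpoly_natDegree_eq_dim]
  have h1 := congrArg natDegree (exists_mat h hm).choose_spec.choose_spec
  rw [Matrix.charpoly_natDegree_eq_dim] at h1
  exact h1

/-- **The polynomial with the powers of the roots.** -/
theorem weil_powPoly (q : ℕ) (h : ℤ[X]) (hm : h.Monic) (c : ℕ) :
    (weil (q ^ c) (powPoly q h hm c)).map (Int.castRingHom K) =
      (((weil q h).map (Int.castRingHom K)).roots.map fun α => X - C (α ^ c)).prod := by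
  set M := (exists_mat h hm).choose_spec.choose with hMdef
  have hM : M.charpoly = h := (exists_mat h hm).choose_spec.choose_spec
  unfold powPoly
  rw [← hMdef]
  set φ : ℤ →+* K := Int.castRingHom K with hφ
  set s : Multiset K := (h.map φ).roots with hs
  have h1 : ((aeval M (dickson 1 (q : ℤ) c)).charpoly).map φ =
      (s.map fun θ => X - C (((dickson 1 (q : ℤ) c).map φ).eval θ)).prod := by
    have e1 : (aeval M (dickson 1 (q : ℤ) c)).map φ =
        aeval (M.map φ) ((dickson 1 (q : ℤ) c).map φ) := by
      have e2 := Polynomial.hom_eval₂ (dickson 1 (q : ℤ) c) (algebraMap ℤ _) (φ.mapMatrix) M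
      have e3 : φ.mapMatrix (eval₂ (algebraMap ℤ (Matrix _ _ ℤ)) M
        (dickson 1 (q : ℤ) c)) = (aeval M (dickson 1 (q : ℤ) c)).map φ := rfl
      rw [← e3, e2, aeval_def, eval₂_map]
      congr 1
      exact RingHom.ext_int _ _
    rw [← Matrix.charpoly_map, e1, charpoly_aeval, Matrix.charpoly_map, hM]
  rw [weil_map _ _ (Matrix.charpoly_monic _), h1, weil_map q h hm]
  choose a b hab hab' using exists_ab (K := K) q
  have h2 : (s.map fun θ => X ^ 2 - C θ * X + C (q : K)).prod =
      ((s.map a + s.map b).map fun x => X - C x).prod := by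
    rw [Multiset.map_add, Multiset.prod_add, Multiset.map_map, Multiset.map_map,
      ← Multiset.prod_map_mul]
    congr 1
    refine Multiset.map_congr rfl fun θ _ => ?_
    have e1 : C θ = C (a θ) + C (b θ) := by rw [← C_add, hab]
    have e2 : C (q : K) = C (a θ) * C (b θ) := by rw [← C_mul, hab']
    simp only [Function.comp_apply]
    rw [e1, e2]
    ring
  rw [h2, roots_multiset_prod_X_sub_C]
  have h3 : ((s.map fun θ => X - C (((dickson 1 (q : ℤ) c).map φ).eval θ)).prod).roots =
      s.map fun θ => ((dickson 1 (q : ℤ) c).map φ).eval θ := by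
    have e1 : (s.map fun θ => X - C (((dickson 1 (q : ℤ) c).map φ).eval θ)) =
        (s.map fun θ => ((dickson 1 (q : ℤ) c).map φ).eval θ).map fun x => X - C x := by
      rw [Multiset.map_map]
      rfl
    rw [e1, roots_multiset_prod_X_sub_C]
  rw [h3, Multiset.map_map, Multiset.map_add, Multiset.prod_add, Multiset.map_map,
    Multiset.map_map, ← Multiset.prod_map_mul]
  congr 1
  refine Multiset.map_congr rfl fun θ _ => ?_
  simp only [Function.comp_apply]
  have e1 : ((dickson 1 (q : ℤ) c).map φ).eval θ = a θ ^ c + b θ ^ c := by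
    have := dickson_eval q (a θ) (b θ) (hab' θ) c
    rw [hab] at this
    exact this
  have e2 : ((q ^ c : ℕ) : K) = a θ ^ c * b θ ^ c := by
    push_cast
    rw [← hab' θ, mul_pow]
  rw [e1, e2, C_add, C_mul]
  ring

end Weil

end Pool.Agent.V8H88.UN
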