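import Pool.Agent.V8H88.UN.Mem
import Pool.Agent.V8H88.UN.Bal
import Pool.Agent.V8H88.UN.Pow

/-!
# Polynomials with pairwise different splitting fields: the relations are balanced
-/

set_option autoImplicit false
set_option linter.unusedSectionVars false

open Polynomial NumberField

namespace Pool.Agent.V8H88.UN

open Pool.Agent.W458.MF Pool.Agent.W521.Frob Pool.Agent.W521.Criterion Pool.Agent.W338.MF

/-- The splitting field of a polynomial. -/
noncomputable def spl (P : ℤ[X]) : IntermediateField ℚ ℂ :=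
  IntermediateField.adjoin ℚ {z : ℂ | aeval z P = 0}

/-- Different splitting fields. -/
theorem exists_rho {P P' : ℤ[X]} (hne : spl P ≠ spl P')
    (L : Type) [Field L] [NumberField L] [IsGalois ℚ L] (j : L →+* ℂ)
    (hL : ∀ z : ℂ, aeval z P = 0 → ∃ x : L, j x = z)
    (hL' : ∀ z : ℂ, aeval z P' = 0 → ∃ x : L, j x = z)
    {Ω Ω' : Finset L} (hΩ : ∀ x, x ∈ Ω ↔ aeval x P = 0) (hΩ' : ∀ x, x ∈ Ω' ↔ aeval x P' = 0) :
    ∃ ρ : L ≃ₐ[ℚ] L, ¬ ((∀ x ∈ Ω, ρ x = x) ↔ (∀ x ∈ Ω', ρ x = x)) := by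
  by_contra hno
  push Not at hno
  apply hne
  set ψ : L →ₐ[ℚ] ℂ := j.toRatAlgHom with hψ
  have himg : ∀ (Q : ℤ[X]) (Δ : Finset L), (∀ z : ℂ, aeval z Q = 0 → ∃ x : L, j x = z) →
      (∀ x, x ∈ Δ ↔ aeval x Q = 0) → (IntermediateField.adjoin ℚ (Δ : Set L)).map ψ = spl Q := by
    intro Q Δ h1 h2
    rw [IntermediateField.adjoin_map]
    unfold spl
    congr 1
    ext z
    constructor
    · rintro ⟨x, hx, rfl⟩
      exact aeval_up j Q x ((h2 x).1 hx)
    · intro hz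
      obtain ⟨x, rfl⟩ := h1 z hz
      exact ⟨x, (h2 x).2 (aeval_down j Q x hz), rfl⟩
  rw [← himg P Ω hL hΩ, ← himg P' Ω' hL' hΩ']
  congr 1
  have hfix : ∀ (Δ : Finset L) (ρ : L ≃ₐ[ℚ] L),
      ρ ∈ (IntermediateField.adjoin ℚ (Δ : Set L)).fixingSubgroup ↔ ∀ x ∈ Δ, ρ x = x := by
    intro Δ ρ
    rw [IntermediateField.mem_fixingSubgroup_iff]
    exact IntermediateField.forall_mem_adjoin_smul_eq_self_iff (S := (Δ : Set L)) ℚ ρ
  have h3 : (IntermediateField.adjoin ℚ (Ω : Set L)).fixingSubgroup =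
      (IntermediateField.adjoin ℚ (Ω' : Set L)).fixingSubgroup := by
    ext ρ
    rw [hfix, hfix]
    exact hno ρ
  rw [← IsGalois.fixedField_fixingSubgroup (IntermediateField.adjoin ℚ (Ω : Set L)),
    ← IsGalois.fixedField_fixingSubgroup (IntermediateField.adjoin ℚ (Ω' : Set L)), h3]

lemma aeval_powPoly {q : ℕ} {h : ℤ[X]} (hm : h.Monic) (c : ℕ) (z : ℂ) :
    aeval z (weil (q ^ c) (powPoly q h hm c)) = 0 ↔
      ∃ α : ℂ, aeval α (weil q h) = 0 ∧ α ^ c = z := by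
  have h1 : aeval z (weil (q ^ c) (powPoly q h hm c)) =
      ((weil (q ^ c) (powPoly q h hm c)).map (Int.castRingHom ℂ)).eval z := by
    rw [eval_map]
    rfl
  have h2 : ∀ α : ℂ, α ∈ ((weil q h).map (Int.castRingHom ℂ)).roots ↔ aeval α (weil q h) = 0 := by
    intro α
    rw [mem_roots ((weil_monic q hm).map _).ne_zero, IsRoot.def, eval_map]
    rfl
  rw [h1, weil_powPoly, eval_multiset_prod, Multiset.map_map, Multiset.prod_eq_zero_iff,
    Multiset.mem_map]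
  constructor
  · rintro ⟨α, hα, h3⟩
    rw [Function.comp_apply, eval_sub, eval_X, eval_C, sub_eq_zero] at h3
    exact ⟨α, (h2 α).1 hα, h3.symm⟩
  · rintro ⟨α, hα, rfl⟩
    exact ⟨α, (h2 α).2 hα, by rw [Function.comp_apply, eval_sub, eval_X, eval_C, sub_self]⟩

/-- **The relations are balanced.** -/
theorem nt_un {I : Type} [Finite I] (o : I → Prop) (q : I → ℕ) (h : I → ℤ[X])
    (R : ℤ[X]) (N : I → ℕ) (c : I → ℕ) (hc : ∀ i, 0 < c i) (hq : ∀ i, 0 < q i)
    (hm : ∀ i, (h i).Monic) (hR : R.Monic)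
    (huni : ∀ i, ∀ z : ℂ, (∃ t : ℕ, 0 < t ∧ z ^ t = 1) →
      (∃ P : ℚ[X], P ≠ 0 ∧ P.natDegree ≤ 2 * (h i).natDegree ∧ aeval z P = 0) → z ^ N i = 1)
    (hpat : ∀ i, Pattern (o i) (q i) (h i) R (N i))
    (hdiff : ∀ i i', i ≠ i' → spl (weil (q i) (h i)) ≠ spl (weil (q i') (h i'))) :
    Balanced (fun i => q i ^ c i) (fun i => powPoly (q i) (h i) (hm i) (c i)) R ∧
      ∀ i, ((weil (q i ^ c i) (powPoly (q i) (h i) (hm i) (c i))).map
        (Int.castRingHom ℚ)).Separable := by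
  classical
  cases nonempty_fintype I
  have hPm : ((∏ i, weil (q i) (h i)) * R).Monic :=
    (monic_prod_of_monic _ _ fun i _ => weil_monic (q i) (hm i)).mul hR
  obtain ⟨L, _, _, _, j, hj⟩ := exists_field' _ hPm
  have hL : ∀ i, ∀ z : ℂ, aeval z (weil (q i) (h i)) = 0 → ∃ x : L, j x = z := by
    intro i z hz
    apply hj
    rw [map_mul, map_prod, Finset.prod_eq_zero (Finset.mem_univ i) hz, zero_mul]
  have hLR : ∀ z : ℂ, aeval z R = 0 → ∃ x : L, j x = z := by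
    intro z hz
    apply hj
    rw [map_mul, hz, mul_zero]
  set Ω : I → Finset L := fun i => ((weil (q i) (h i)).map (algebraMap ℤ L)).roots.toFinset
    with hΩdef
  have hΩ : ∀ i x, x ∈ Ω i ↔ aeval x (weil (q i) (h i)) = 0 := by
    intro i x
    rw [hΩdef]
    simp only
    rw [Multiset.mem_toFinset, mem_roots ((weil_monic (q i) (hm i)).map _).ne_zero, IsRoot.def,
      eval_map]
    rfl
  have hmem := fun i => member (hq i) (hm i) hR (huni i) (hpat i) L j (hL i) (hΩ i)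
  have hG : ∀ i, Good (q i) (Ω i) := fun i => (hmem i).1
  have hF : ∀ i, Flips (q i) (Ω i) (fun σ => ∀ β : L, aeval β R = 0 → σ β = β) :=
    fun i => (hmem i).2
  set Ω' : I → Finset L := fun i => (Ω i).image (· ^ c i) with hΩ'def
  have hG' : ∀ i, Good (q i ^ c i) (Ω' i) := fun i => (hG i).pow (hc i)
  have hF' : ∀ i, Flips (q i ^ c i) (Ω' i) (fun σ => ∀ β : L, aeval β R = 0 → σ β = β) :=
    fun i => (hF i).pow (hG i) (hc i)
  have hS : Sys (fun i => q i ^ c i) Ω' := ⟨fun i => (hG' i).q_ne, fun i => (hG' i).ne_zero,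
    fun i => (hG' i).bar, fun i => (hG' i).stab, fun i => (hG' i).trans, fun i => (hG' i).pow_ne⟩
  have hΩ' : ∀ i x, x ∈ Ω' i ↔
      aeval x (weil (q i ^ c i) (powPoly (q i) (h i) (hm i) (c i))) = 0 := by
    intro i x
    rw [hΩ'def]
    simp only
    rw [Finset.mem_image]
    constructor
    · rintro ⟨y, hy, rfl⟩
      apply aeval_down j
      rw [aeval_powPoly]
      exact ⟨j y, aeval_up j _ _ ((hΩ i y).1 hy), (map_pow j y _).symm⟩
    · intro hx
      obtain ⟨α, hα, hαx⟩ := (aeval_powPoly (hm i) (c i) (j x)).1 (aeval_up j _ _ hx)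
      obtain ⟨y, rfl⟩ := hL i α hα
      exact ⟨y, (hΩ i y).2 (aeval_down j _ _ hα), j.injective (by rw [map_pow]; exact hαx)⟩
  have hL' : ∀ i, ∀ z : ℂ, aeval z (weil (q i ^ c i) (powPoly (q i) (h i) (hm i) (c i))) = 0 →
      ∃ x : L, j x = z := by
    intro i z hz
    obtain ⟨α, hα, rfl⟩ := (aeval_powPoly (hm i) (c i) z).1 hz
    obtain ⟨y, rfl⟩ := hL i α hα
    exact ⟨y ^ c i, map_pow j y _⟩
  have hprj : ∀ i, ∀ x ∈ Ω' i, ∃ σ τ, IsPrj (q i ^ c i) (Ω' i) x σ τ ∧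
      ∀ β : L, aeval β R = 0 → σ β = β := fun i => prj_of_flips (hG' i) (hF' i)
  have hdiff' : ∀ i i', i ≠ i' → ∃ ρ : L ≃ₐ[ℚ] L,
      ¬ ((∀ x ∈ Ω' i, ρ x = x) ↔ (∀ x ∈ Ω' i', ρ x = x)) := by
    intro i i' hii
    obtain ⟨ρ, hρ⟩ := exists_rho (hdiff i i' hii) L j (hL i) (hL i') (hΩ i) (hΩ i')
    refine ⟨ρ, ?_⟩
    rw [(hG i).fix_pow (hF i) (hc i) ρ, (hG i').fix_pow (hF i') (hc i') ρ]
    exact hρ
  refine ⟨?_, ?_⟩
  · unfold Pool.Agent.W458.MF.Balanced
    intro l hl t ht ν hν d hd hprod i z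
    exact bal3 (q := fun i => q i ^ c i) (fun i => (pow_pos (hq i) _).ne')
      (fun i => powPoly_monic _ _ (hm i) _) L j hL' hLR hS hΩ' hprj hdiff' l hl t ht ν hν d hd
      hprod i z
  · intro i
    have hmC : Function.Injective (algebraMap ℚ ℂ) := (algebraMap ℚ ℂ).injective
    rw [← Polynomial.separable_map (algebraMap ℚ ℂ), Polynomial.map_map,
      RingHom.ext_int ((algebraMap ℚ ℂ).comp (Int.castRingHom ℚ)) (Int.castRingHom ℂ),
      weil_powPoly]
    set s : Multiset ℂ := ((weil (q i) (h i)).map (Int.castRingHom ℂ)).roots with hs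
    have hnd : s.Nodup := by
      apply nodup_roots
      have h1 := member_sep (hq i) (hm i) hR (huni i) (hpat i)
      rw [← Polynomial.separable_map (algebraMap ℚ ℂ), Polynomial.map_map,
        RingHom.ext_int ((algebraMap ℚ ℂ).comp (Int.castRingHom ℚ)) (Int.castRingHom ℂ)] at h1
      exact h1
    have hval : s.toFinset.val = s := by rw [Multiset.toFinset_val, Multiset.dedup_eq_self.2 hnd]
    have h2 : (s.map fun α => X - C (α ^ c i)).prod = ∏ α ∈ s.toFinset, (X - C (α ^ c i)) := by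
      rw [Finset.prod, hval]
    rw [h2, separable_prod_X_sub_C_iff']
    intro x hx y hy hxy
    rw [Multiset.mem_toFinset, hs, mem_roots ((weil_monic (q i) (hm i)).map _).ne_zero,
      IsRoot.def, eval_map] at hx hy
    obtain ⟨a, rfl⟩ := hL i x hx
    obtain ⟨b, rfl⟩ := hL i y hy
    rw [(hG i).pow_inj (hF i) (hc i) ((hΩ i a).2 (aeval_down j _ _ hx))
      ((hΩ i b).2 (aeval_down j _ _ hy)) (j.injective (by rw [map_pow, map_pow]; exact hxy))]

end Pool.Agent.V8H88.UN
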