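import Pool.Agent.V8H88.UN.Fam
import Pool.Agent.V8H88.UN.NTU
import Pool.Agent.V8H88.UN.Defs

/-!
# For almost all tuples of members the fields are different
-/

set_option autoImplicit false
set_option linter.unusedSectionVars false

open CategoryTheory AlgebraicGeometry Polynomial NumberField

universe u v

namespace Pool.Agent.V8H88.UN

open Pool.Agent.H914 Pool.Agent.W534 Pool.Agent.W521.Frob Pool.Agent.W458.MF VarClass Obj
  WeilCohomology Pool.Agent.V8H88.UF Pool.Agent.V8H88.RM Pool.Agent.W338.MF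
  Pool.Agent.W521.Criterion

/-- Different splitting fields from the patterns at one prime. -/
theorem spl_ne {q q' : ℕ} {h h' : ℤ[X]} {N : ℕ} (hq : 0 < q) (hq' : 0 < q') (hm : h.Monic)
    (hm' : h'.Monic) {l : ℕ} (hl : l.Prime) (hl2 : l ≠ 2) (hlq : ¬ l ∣ q) (hlq' : ¬ l ∣ q')
    (hfl : h.map (Int.castRingHom (ZMod l)) ∈ flipSet h.natDegree N l q ∨
      h.map (Int.castRingHom (ZMod l)) ∈ flip2Set h.natDegree N l q)
    (hspl : h'.map (Int.castRingHom (ZMod l)) ∈ splitSet h'.natDegree l q') :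
    spl (weil q h) ≠ spl (weil q' h') := by
  classical
  intro heq
  have hPm : (weil q h * weil q' h').Monic := (weil_monic q hm).mul (weil_monic q' hm')
  obtain ⟨L, _, _, _, j, hj⟩ := exists_field' _ hPm
  have hL : ∀ z : ℂ, aeval z (weil q h) = 0 → ∃ x : L, j x = z := by
    intro z hz
    apply hj
    rw [map_mul, hz, zero_mul]
  have hL' : ∀ z : ℂ, aeval z (weil q' h') = 0 → ∃ x : L, j x = z := by
    intro z hz
    apply hj
    rw [map_mul, hz, mul_zero]
  set Q : Bool → ℕ := fun b => cond b q q' with hQ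
  set H : Bool → ℤ[X] := fun b => cond b h h' with hH
  have hHm : ∀ b, (H b).Monic := by
    intro b
    cases b
    · exact hm'
    · exact hm
  have hQl : ∀ b, ¬ l ∣ Q b := by
    intro b
    cases b
    · exact hlq'
    · exact hlq
  have hsp : ((H true).map (algebraMap ℤ L)).Splits :=
    splits_h (I := Unit) hq.ne' (fun _ => hm) L j (fun _ => hL) ()
  have hqd : ∀ θ : L, aeval θ (H true) = 0 → ∃ α : L, α ^ 2 + (Q true : L) = θ * α :=
    quad_L (I := Unit) hq.ne' (fun _ => hm) L j (fun _ => hL) ()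
  have hR1 : SplitsMod (1 : ℤ[X]) l := ⟨∅, by simp⟩
  have hs' : ∀ b, b ≠ true → (H b).map (Int.castRingHom (ZMod l)) ∈
      splitSet (H b).natDegree l (Q b) := by
    intro b hb
    cases b
    · exact hspl
    · exact absurd rfl hb
  obtain ⟨σ, α, hα, hσα, hαne, hσ⟩ : ∃ (σ : L ≃ₐ[ℚ] L) (α : L), aeval α (weil q h) = 0 ∧
      σ α = (q : L) / α ∧ α ≠ (q : L) / α ∧ ∀ β : L, aeval β (weil q' h') = 0 → σ β = β := by
    rcases hfl with hfl | hfl
    · have hF : St_FLIP := W976.MF.FLIP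
      obtain ⟨T, t₀, hTc, ht₀, hT, hns, hlu, hsq⟩ := hfl
      obtain ⟨σ, α₀, a1, a2, a3, a4, a5, a6, a7⟩ := hF Q H 1 (luc q N) hHm monic_one L true hsp
        hqd l hl hl2 hQl hR1 hs' ⟨T, t₀, ht₀, hT, hns, hlu, hsq⟩
      exact ⟨σ, α₀, a1, a2, a3, a6 false (by decide)⟩
    · have hF2 : St_FLIP2 := W902.MF.FLIP2
      obtain ⟨T, t₀, t₁, hTc, ht₀, ht₁, hne01, hT, hns0, hns1, hlu, hsq⟩ := hfl
      obtain ⟨σ, θ₀, θ₁, a1, a2, a3, a4, a5, a6, a7, a8⟩ := hF2 Q H 1 (luc q N) hHm monic_one L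
        true hsp hqd l hl hl2 hQl hR1 hs' ⟨T, t₀, t₁, ht₀, ht₁, hne01, hT, hns0, hns1, hlu, hsq⟩
      have hqL : (q : L) ≠ 0 := by exact_mod_cast hq.ne'
      obtain ⟨α₀, hα₀⟩ := hqd θ₀ a1
      have hα₀' : α₀ ^ 2 + (q : L) = θ₀ * α₀ := hα₀
      have hα₀0 : α₀ ≠ 0 := by
        rintro rfl
        rw [zero_pow two_ne_zero, zero_add, mul_zero] at hα₀'
        exact hqL hα₀'
      have a1' : aeval θ₀ h = 0 := a1
      have hα₀w : aeval α₀ (weil q h) = 0 := by
        rw [aeval_weil q h α₀ θ₀ hα₀', a1', mul_zero]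
      have hθe : α₀ + (q : L) / α₀ = θ₀ := by
        apply mul_right_cancel₀ hα₀0
        rw [← hα₀']
        field_simp
      obtain ⟨h1, h2⟩ := a5 α₀ hα₀w (Or.inl hθe)
      exact ⟨σ, α₀, hα₀w, h1, h2, a7 false (by decide)⟩
  -- the automorphism fixes the field of `h'` but not the field of `h`
  set ψ : L →ₐ[ℚ] ℂ := j.toRatAlgHom with hψ
  have himg : ∀ (P : ℤ[X]), (∀ z : ℂ, aeval z P = 0 → ∃ x : L, j x = z) →
      (IntermediateField.adjoin ℚ {x : L | aeval x P = 0}).map ψ = spl P := by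
    intro P h1
    rw [IntermediateField.adjoin_map]
    unfold spl
    congr 1
    ext z
    constructor
    · rintro ⟨x, hx, rfl⟩
      exact aeval_up j P x hx
    · intro hz
      obtain ⟨x, rfl⟩ := h1 z hz
      exact ⟨x, aeval_down j P x hz, rfl⟩
  have hmem : ψ α ∈ spl (weil q h) :=
    IntermediateField.subset_adjoin _ _ (aeval_up j _ _ hα)
  rw [heq, ← himg _ hL'] at hmem
  obtain ⟨β, hβ, hβα⟩ := hmem
  have hβα' : β = α := ψ.injective hβα
  rw [hβα'] at hβ
  have hfix := (IntermediateField.forall_mem_adjoin_smul_eq_self_iff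
    (S := {x : L | aeval x (weil q' h') = 0}) ℚ σ).2 hσ α hβ
  apply hαne
  rw [← hσα]
  exact hfix.symm

section Family

variable {k : Type u} [Field k] {𝒱 : VarClass k} {ops : CycleOps 𝒱}
  {W : WeilCohomology.{u, v} ops} {Y : 𝒱.Obj} {p : ℕ} {Φ : FrobSystem W p}

/-- The patterns. -/
def revs0 {I : Type} [DecidableEq I] (K : I → Type) [∀ i, Field (K i)] [∀ i, NumberField (K i)]
    (o : I → Prop) (g : I → ℕ) (q : I → ℕ) (N : ℕ) (κ : I) (i : I) (l : ℕ) :
    Set ((𝓞 (K i) →+* ZMod l) → (ZMod l)[X]) :=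
  if i = κ then
      {u | (¬ o i → ∏ᶠ χ, u χ ∈ flipSet (Module.finrank ℚ (K i) * g i) N l (q i)) ∧
        (o i → ∏ᶠ χ, u χ ∈ flip2Set (Module.finrank ℚ (K i) * g i) N l (q i))}
    else {u | ∏ᶠ χ, u χ ∈ splitSet (Module.finrank ℚ (K i) * g i) l (q i)}

lemma field_eq (P : Piece W Y) (m : ℕ) (hP : P.pol.Monic) :
    field p (P, m) = spl (weil (p ^ (P.obj.dim * m)) P.pol) := by
  unfold field spl
  congr 1
  ext z
  rw [mem_rootSet]
  exact ⟨fun h => h.2, fun h => ⟨(weil_monic _ hP).ne_zero, h⟩⟩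

/-- **For almost all tuples of members the fields are different.** -/
theorem diff (hp : p.Prime) {I : Type} [Fintype I] (K : I → Type) [∀ i, Field (K i)]
    [∀ i, NumberField (K i)]
    (F : ∀ i, RFamily W Y (K i)) (hF : ∀ i, (F i).HasFullMonodromy Φ) (ε : ℝ) (hε : 0 < ε) :
    ∃ m₀ : ℕ, ∀ m ≥ m₀, ({s : ∀ i, (F i).S m | ¬ ∀ i i', i ≠ i' →
        field p ((F i).member m (s i), m) ≠ field p ((F i').member m (s i'), m)}.ncard : ℝ) ≤
      ε * ∏ i, (Nat.card ((F i).S m) : ℝ) := by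
  classical
  have hS : St_SIEVE := W216.MF.sieve
  have hSPL : St_SPL := W976.MF.SPL
  choose d g l₀ D G hM using hF
  by_cases hg : ∃ i, g i = 0
  · obtain ⟨i, hi⟩ := hg
    refine ⟨1, fun m hm => ?_⟩
    have h1 : IsEmpty ((F i).S m) := by
      refine ⟨fun s => ?_⟩
      have h2 := degree_pol (hM i) m (by omega) s
      have h3 := ((hM i).isOver m (by omega) s).degree_pos
      rw [h2, hi, mul_zero] at h3
      exact lt_irrefl _ h3
    have h2 : IsEmpty (∀ i, (F i).S m) := ⟨fun s => h1.false (s i)⟩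
    rw [Set.eq_empty_of_isEmpty {s : ∀ i, (F i).S m | ¬ ∀ i i', i ≠ i' →
        field p ((F i).member m (s i), m) ≠ field p ((F i').member m (s i'), m)},
      Set.ncard_empty, Nat.cast_zero]
    positivity
  push Not at hg
  have hg0 : ∀ i, 0 < g i := fun i => Nat.pos_of_ne_zero (hg i)
  choose θ Nθ hθ using fun i => exists_gen (K i)
  choose o c l₁ hc ho3 hdat using fun i =>
    exists_dat (g i) 1 p (d i) (hg0 i) one_pos hp (G i) (hM i).group
  -- the constants
  set e : I → ℕ := fun i => Module.finrank ℚ (K i) with he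
  set c' : I → ℝ := fun i => (c i / 2 / 2 ^ g i) ^ e i with hc'
  have hc'0 : ∀ i, 0 < c' i := fun i => pow_pos (div_pos (half_pos (hc i)) (by positivity)) _
  obtain ⟨c₀, hc₀, hc₀c⟩ : ∃ c₀ : ℝ, 0 < c₀ ∧ ∀ i, c₀ ≤ c' i := by
    rcases isEmpty_or_nonempty I with hI | hI
    · exact ⟨1, one_pos, fun i => hI.elim i⟩
    · obtain ⟨i, hi⟩ := Finite.exists_min c'
      exact ⟨c' i, hc'0 i, hi⟩
  have hl₂ : ∀ i, ∃ l₂ : ℕ, ∀ l : ℕ, l₂ ≤ l → 2 * ((e i * g i : ℕ) : ℝ) ≤ c i * l := by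
    intro i
    obtain ⟨l₂, h⟩ := exists_nat_ge (2 * ((e i * g i : ℕ) : ℝ) / c i)
    refine ⟨l₂, fun l hl => ?_⟩
    have h1 : 2 * ((e i * g i : ℕ) : ℝ) / c i ≤ l := h.trans (by exact_mod_cast hl)
    rw [div_le_iff₀ (hc i)] at h1
    linarith
  choose l₂ hl₂ using hl₂
  set L : ℕ := p + 3 + ∑ i, (l₀ i + l₁ i + l₂ i + Nθ i) with hL
  have hLi : ∀ i, l₀ i + l₁ i + l₂ i + Nθ i ≤ L := fun i => by
    have := Finset.single_le_sum (f := fun i => l₀ i + l₁ i + l₂ i + Nθ i)
      (fun j _ => Nat.zero_le _) (Finset.mem_univ i)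
    omega
  -- the primes
  obtain ⟨A, hA, hAs, hAd⟩ := exists_common (I := I ⊕ I)
    (fun x => match x with
      | Sum.inl i => minpoly ℤ (θ i)
      | Sum.inr i => D i)
    (fun x => match x with
      | Sum.inl i => minpoly.monic (Algebra.IsIntegral.isIntegral (θ i))
      | Sum.inr i => (hM i).monic')
    (fun x => match x with
      | Sum.inl i => minpoly_separable (θ i)
      | Sum.inr i => (hM i).separable)
  have hAθ : ∀ i, minpoly ℤ (θ i) ∣ A := fun i => hAd (Sum.inl i)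
  have hAD : ∀ i, D i ∣ A := fun i => hAd (Sum.inr i)
  set G' : Set ℕ := {l : ℕ | l.Prime ∧ SplitsMod A l} \ {l | l ≤ L} with hG'
  have hinf : G'.Infinite := (hSPL A hA hAs).sdiff (Set.finite_le_nat L)
  have hGp : ∀ l ∈ G', l.Prime ∧ SplitsMod A l ∧ L < l := fun l hl =>
    ⟨hl.1.1, hl.1.2, not_le.1 hl.2⟩
  have hGθ : ∀ i, ∀ l ∈ G', SplitsMod (minpoly ℤ (θ i)) l := fun i l hl =>
    splitsMod_of_dvd (minpoly.monic (Algebra.IsIntegral.isIntegral (θ i))) (hAθ i) (hGp l hl).1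
      (hGp l hl).2.1
  have hGD : ∀ i, ∀ l ∈ G', SplitsMod (D i) l := fun i l hl =>
    splitsMod_of_dvd (hM i).monic' (hAD i) (hGp l hl).1 (hGp l hl).2.1
  have hGN : ∀ i, ∀ l ∈ G', ¬ l ∣ Nθ i := by
    intro i l hl h
    have h1 := (hGp l hl).2.2
    have h2 := hLi i
    have h3 := Nat.le_of_dvd (hθ i).pos h
    omega
  have hGs : ∀ i, ∀ l ∈ G', SplitsCompletely (K i) l := fun i l hl =>
    splitsCompletely_of (hθ i) l (hGp l hl).1 (hGθ i l hl) (hGN i l hl)
  have hGl : ∀ i, ∀ l ∈ G', l₀ i ≤ l := by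
    intro i l hl
    have h1 := (hGp l hl).2.2
    have h2 := hLi i
    omega
  have hGlp : ∀ l ∈ G', ¬ l ∣ p := by
    intro l hl h
    have h1 := (hGp l hl).2.2
    have h3 := Nat.le_of_dvd hp.pos h
    omega
  have hGne : ∀ l, ∃ l' ∈ G', l ≠ l' := by
    intro l
    obtain ⟨l', hl', hne⟩ := hinf.exists_gt l
    exact ⟨l', hl', by omega⟩
  have hfin : ∀ i, ∀ l ∈ G', Finite (𝓞 (K i) →+* ZMod l) := fun i l hl =>
    Nat.finite_of_card_ne_zero (by
      rw [show Nat.card (𝓞 (K i) →+* ZMod l) = Module.finrank ℚ (K i) from hGs i l hl]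
      exact Module.finrank_pos.ne')
  have hdens : ∀ i, ∀ l ∈ G', ∀ m : ℕ, ∀ κ : I,
      c₀ ≤ share (g i) l (p ^ (d i * m)) (G i m l)
        (revs0 K o g (fun i => p ^ (d i * m)) 1 κ i l) := by
    intro i l hl m i₀
    have h4 := hLi i
    have h3 := (hGp l hl).2.2
    have hprime := (hGp l hl).1
    have hf := hfin i l hl
    let _ : Fintype (𝓞 (K i) →+* ZMod l) := Fintype.ofFinite _
    have hcard : Fintype.card (𝓞 (K i) →+* ZMod l) = e i := by
      rw [← Nat.card_eq_fintype_card]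
      exact hGs i l hl
    obtain ⟨χ₀⟩ : Nonempty (𝓞 (K i) →+* ZMod l) := by
      rw [← Fintype.card_pos_iff, hcard]
      exact Module.finrank_pos
    have hdat' : ∀ χ, Dat (o i) (g i) 1 l (p ^ (d i * m)) (G i m l χ) (c i) := fun χ =>
      hdat i l hprime (by omega) (hGlp l hl) m χ
    have hll : 2 * ((Fintype.card (𝓞 (K i) →+* ZMod l) * g i : ℕ) : ℝ) ≤ c i * l := by
      rw [hcard]
      exact hl₂ i l (by omega)
    have hc₀' : c₀ ≤ (c i / 2 / 2 ^ g i) ^ Fintype.card (𝓞 (K i) →+* ZMod l) := by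
      rw [hcard]
      exact hc₀c i
    have h1 := dens_split (hg0 i) hprime (hc i) hdat' hll χ₀
    have h2 := fun ho => dens_flip (hg0 i) hprime (hc i) hdat' hll χ₀ ho
    have h2' := fun ho => dens_flip2 (hg0 i) hprime (hc i) hdat' hll χ₀ ho
    unfold revs0
    simp only [finprod_eq_prod_of_fintype]
    rw [hcard] at h1 h2 h2'
    split_ifs
    · by_cases ho : o i
      · refine (hc₀'.trans (by rw [hcard]; exact h2' ho)).trans (share_mono hprime ?_)
        intro u hu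
        exact ⟨fun h => absurd ho h, fun _ => hu⟩
      · refine (hc₀'.trans (by rw [hcard]; exact h2 ho)).trans (share_mono hprime ?_)
        intro u hu
        exact ⟨fun _ => hu, fun h => absurd h ho⟩
    · exact hc₀'.trans (by rw [hcard]; exact h1)
  obtain ⟨m₀, h⟩ := almost_all_abs hS (I := I) (K := I) (fun i m => (F i).S m) G' hinf
    (fun κ i m l => (F i).rpat m l (revs0 K o g (fun i => p ^ (d i * m)) 1 κ i l))
    (fun κ i m l => share (g i) l (p ^ (d i * m)) (G i m l)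
      (revs0 K o g (fun i => p ^ (d i * m)) 1 κ i l))
    (by
      intro κ i l hl ε hε
      obtain ⟨l', hl', hne⟩ := hGne l
      obtain ⟨m₀, h⟩ := equi_single (hM i) (hGp l hl).1 (hGp l' hl').1 (hGl i l hl)
        (hGl i l' hl') hne (hGs i l hl) (hGs i l' hl') (hGD i l hl) (hGD i l' hl') hε
      exact ⟨m₀, fun m hm hne => h m hm hne _⟩)
    (by
      intro κ i l hl l' hl' hne ε hε
      obtain ⟨m₀, h⟩ := equi_pair (hM i) (hGp l hl).1 (hGp l' hl').1 (hGl i l hl)
        (hGl i l' hl') hne (hGs i l hl) (hGs i l' hl') (hGD i l hl) (hGD i l' hl') hε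
      exact ⟨m₀, fun m hm hne => h m hm hne _ _⟩) hc₀
    (fun κ i l hl m _ => ⟨hdens i l hl m κ, by
      have := hfin i l hl
      exact share_le_one (hGp l hl).1⟩) ε hε
  refine ⟨m₀ + 1, fun m hm => le_trans ?_ (h m (by omega))⟩
  have hm0 : 0 < m := by omega
  refine Nat.cast_le.2 (Set.ncard_le_ncard ?_ (Set.toFinite _))
  intro s hs hpat
  apply hs
  intro i₀ i hii
  have hO : ∀ i, ((F i).member m (s i)).IsOver Φ m := fun i => (hM i).isOver m hm0 (s i)
  have hdim : ∀ i, ((F i).member m (s i)).obj.dim = d i := fun i => (hM i).dim m (s i)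
  have hdeg : ∀ i, ((F i).member m (s i)).pol.natDegree = Module.finrank ℚ (K i) * g i :=
    fun i => degree_pol (hM i) m hm0 (s i)
  have hred : ∀ i, ∀ l ∈ G', ((F i).member m (s i)).pol.map (Int.castRingHom (ZMod l)) =
      ∏ᶠ χ : 𝓞 (K i) →+* ZMod l, ((F i).rpol m (s i)).map χ := by
    intro i l hl
    have hf := hfin i l hl
    let _ : Fintype (𝓞 (K i) →+* ZMod l) := Fintype.ofFinite _
    rw [finprod_eq_prod_of_fintype]
    exact norm_red (hθ i) l (hGp l hl).1 (hGθ i l hl) (hGN i l hl) _ _ ((hM i).norm m (s i))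
  obtain ⟨l, hl, h1⟩ := hpat i₀
  have h2 := h1 i₀
  unfold revs0 RFamily.rpat at h2
  rw [if_pos rfl] at h2
  have h3 := h1 i
  unfold revs0 RFamily.rpat at h3
  rw [if_neg (Ne.symm hii)] at h3
  have hl2 : l ≠ 2 := by
    have h3 := (hGp l hl).2.2
    omega
  have hlq : ∀ i, ¬ l ∣ p ^ (d i * m) := fun i h => hGlp l hl ((hGp l hl).1.dvd_of_dvd_pow h)
  rw [field_eq _ _ (hO i₀).monic, field_eq _ _ (hO i).monic, hdim i₀, hdim i]
  refine spl_ne (pow_pos hp.pos _) (pow_pos hp.pos _) (hO i₀).monic (hO i).monic (hGp l hl).1 hl2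
    (hlq i₀) (hlq i) (N := 1) ?_ ?_
  · rw [hdeg i₀, hred i₀ l hl]
    by_cases ho : o i₀
    · exact Or.inr (h2.2 ho)
    · exact Or.inl (h2.1 ho)
  · rw [hdeg i, hred i l hl]
    exact h3

/-- **For almost all pairs of members the fields are different.** -/
theorem diff_pairs (hp : p.Prime) {I : Type} (K : I → Type) [∀ i, Field (K i)]
    [∀ i, NumberField (K i)]
    (F : ∀ i, RFamily W Y (K i)) (hF : ∀ i, (F i).HasFullMonodromy Φ) (i i' : I) (ε : ℝ)
    (hε : 0 < ε) :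
    ∃ m₀ : ℕ, ∀ m ≥ m₀, ({x : (F i).S m × (F i').S m |
        field p ((F i).member m x.1, m) = field p ((F i').member m x.2, m)}.ncard : ℝ) ≤
      ε * (Nat.card ((F i).S m) * Nat.card ((F i').S m)) := by
  classical
  obtain ⟨m₀, h⟩ := diff hp (I := Bool) (fun b => K (cond b i i')) (fun b => F (cond b i i'))
    (fun b => hF _) ε hε
  refine ⟨m₀, fun m hm => ?_⟩
  have h1 := h m hm
  rw [Fintype.prod_bool] at h1
  refine le_trans (Nat.cast_le.2 ?_) h1
  have hinj : Function.Injective (fun (x : (F i).S m × (F i').S m) (b : Bool) =>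
      (match b with
        | true => x.1
        | false => x.2 : (F (cond b i i')).S m)) := by
    intro x y hxy
    exact Prod.ext (congrFun hxy true) (congrFun hxy false)
  rw [← Set.ncard_image_of_injective _ hinj]
  refine Set.ncard_le_ncard ?_ (Set.toFinite _)
  rintro _ ⟨x, hx, rfl⟩ hall
  exact hall true false (by decide) hx

end Family

end Pool.Agent.V8H88.UN
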