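import Pool.Agent.V8H88.UN.Mem
import Pool.Agent.V8H88.RM.Main

/-!
# Almost all members of a family have the patterns
-/

set_option autoImplicit false
set_option linter.unusedSectionVars false

open CategoryTheory AlgebraicGeometry Polynomial NumberField

universe u v

namespace Pool.Agent.V8H88.UN

open Pool.Agent.H914 Pool.Agent.W534 Pool.Agent.W521.Frob Pool.Agent.W458.MF VarClass Obj
  WeilCohomology Pool.Agent.V8H88.UF Pool.Agent.V8H88.RM

/-- The patterns. -/
def revs1 (K : Type) [Field K] [NumberField K] (o : Prop) (g q N : ℕ) (κ : Fin 3) (l : ℕ) :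
    Set ((𝓞 K →+* ZMod l) → (ZMod l)[X]) :=
  match κ with
  | 0 => {u | (¬ o → ∏ᶠ χ, u χ ∈ flipSet (Module.finrank ℚ K * g) N l q) ∧
        (o → ∏ᶠ χ, u χ ∈ flip2Set (Module.finrank ℚ K * g) N l q)}
  | 1 => {u | ∃ χ, Irreducible (u χ)}
  | 2 => {u | o → ∃ (t : ZMod l) (v : (ZMod l)[X]),
      ∏ᶠ χ, u χ = (X - C t) * v ∧ ∀ s, v.eval s ≠ 0}

section Family

variable {k : Type u} [Field k] {𝒱 : VarClass k} {ops : CycleOps 𝒱}
  {W : WeilCohomology.{u, v} ops} {Y : 𝒱.Obj} {p : ℕ} {Φ : FrobSystem W p}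

/-- The exceptional members of a family. -/
def bad {K : Type} [Field K] [NumberField K] (F : RFamily W Y K) (p : ℕ) (o : Prop) (R : ℤ[X])
    (N m : ℕ) : Set (F.S m) :=
  {s | ¬ Pattern o (p ^ ((F.member m s).obj.dim * m)) (F.member m s).pol R N}

/-- **Almost all members of a family have the patterns.** -/
theorem fam (hp : p.Prime) {R : ℤ[X]} (hRm : R.Monic)
    (hRs : (R.map (Int.castRingHom ℚ)).Separable)
    {K : Type} [Field K] [NumberField K] (F : RFamily W Y K) (hF : F.HasFullMonodromy Φ) :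
    ∃ (o : Prop) (N : ℕ), (∀ m > 0, ∀ s : F.S m, ∀ z : ℂ, (∃ t : ℕ, 0 < t ∧ z ^ t = 1) →
      (∃ P : ℚ[X], P ≠ 0 ∧ P.natDegree ≤ 2 * (F.member m s).pol.natDegree ∧ aeval z P = 0) →
        z ^ N = 1) ∧
      ∀ ε : ℝ, 0 < ε → ∃ m₀ : ℕ, ∀ m ≥ m₀, ((bad F p o R N m).ncard : ℝ) ≤
        ε * (Nat.card (F.S m) : ℝ) := by
  classical
  have hS : St_SIEVE := W216.MF.sieve
  have hSPL : St_SPL := W976.MF.SPL
  have hUNI : St_UNI := W216.MF.uni
  obtain ⟨d, g, l₀, D, G, hM⟩ := hF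
  by_cases hg : g = 0
  · have hemp : ∀ m > 0, IsEmpty (F.S m) := by
      intro m hm
      refine ⟨fun s => ?_⟩
      have h2 := degree_pol hM m hm s
      have h3 := (hM.isOver m hm s).degree_pos
      rw [h2, hg, mul_zero] at h3
      exact lt_irrefl _ h3
    refine ⟨False, 0, fun m hm s => ((hemp m hm).false s).elim, fun ε hε => ⟨1, fun m hm => ?_⟩⟩
    have := hemp m (by omega)
    rw [Set.eq_empty_of_isEmpty (bad F p False R 0 m), Set.ncard_empty, Nat.cast_zero]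
    positivity
  have hg0 : 0 < g := Nat.pos_of_ne_zero hg
  obtain ⟨N, hN, hNz⟩ := hUNI (2 * (Module.finrank ℚ K * g))
  obtain ⟨θ, Nθ, hθ⟩ := exists_gen K
  obtain ⟨o, c, l₁, hc, ho3, hdat⟩ := exists_dat g N p d hg0 hN hp G hM.group
  refine ⟨o, N, ?_, ?_⟩
  · rintro m hm s z ht ⟨Q, hQ0, hQd, hQz⟩
    refine hNz z ht ⟨Q, hQ0, hQd.trans ?_, hQz⟩
    rw [degree_pol hM m hm s]
  intro ε hε
  -- the constants
  set e : ℕ := Module.finrank ℚ K with he
  obtain ⟨c₀, hc₀, hc₀'⟩ : ∃ c₀ : ℝ, 0 < c₀ ∧ c₀ = (c / 2 / 2 ^ g) ^ e :=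
    ⟨_, pow_pos (div_pos (half_pos hc) (by positivity)) _, rfl⟩
  obtain ⟨l₂, hl₂⟩ : ∃ l₂ : ℕ, ∀ l : ℕ, l₂ ≤ l → 2 * ((e * g : ℕ) : ℝ) ≤ c * l := by
    obtain ⟨l₂, h⟩ := exists_nat_ge (2 * ((e * g : ℕ) : ℝ) / c)
    refine ⟨l₂, fun l hl => ?_⟩
    have h1 : 2 * ((e * g : ℕ) : ℝ) / c ≤ l := h.trans (by exact_mod_cast hl)
    rw [div_le_iff₀ hc] at h1
    linarith
  set L : ℕ := p + 3 + (l₀ + l₁ + l₂ + Nθ) with hL
  -- the primes
  obtain ⟨A, hA, hAs, hAd⟩ := exists_common (I := Fin 3)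
    (fun x => match x with
      | 0 => R
      | 1 => minpoly ℤ θ
      | 2 => D)
    (fun x => match x with
      | 0 => hRm
      | 1 => minpoly.monic (Algebra.IsIntegral.isIntegral θ)
      | 2 => hM.monic')
    (fun x => match x with
      | 0 => hRs
      | 1 => minpoly_separable θ
      | 2 => hM.separable)
  have hAR : R ∣ A := hAd 0
  have hAθ : minpoly ℤ θ ∣ A := hAd 1
  have hAD : D ∣ A := hAd 2
  set G' : Set ℕ := {l : ℕ | l.Prime ∧ SplitsMod A l} \ {l | l ≤ L} with hG'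
  have hinf : G'.Infinite := (hSPL A hA hAs).sdiff (Set.finite_le_nat L)
  have hGp : ∀ l ∈ G', l.Prime ∧ SplitsMod A l ∧ L < l := fun l hl =>
    ⟨hl.1.1, hl.1.2, not_le.1 hl.2⟩
  have hGR : ∀ l ∈ G', SplitsMod R l := fun l hl =>
    splitsMod_of_dvd hRm hAR (hGp l hl).1 (hGp l hl).2.1
  have hGθ : ∀ l ∈ G', SplitsMod (minpoly ℤ θ) l := fun l hl =>
    splitsMod_of_dvd (minpoly.monic (Algebra.IsIntegral.isIntegral θ)) hAθ (hGp l hl).1
      (hGp l hl).2.1
  have hGD : ∀ l ∈ G', SplitsMod D l := fun l hl =>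
    splitsMod_of_dvd hM.monic' hAD (hGp l hl).1 (hGp l hl).2.1
  have hGN : ∀ l ∈ G', ¬ l ∣ Nθ := by
    intro l hl h
    have h1 := (hGp l hl).2.2
    have h3 := Nat.le_of_dvd hθ.pos h
    omega
  have hGs : ∀ l ∈ G', SplitsCompletely K l := fun l hl =>
    splitsCompletely_of hθ l (hGp l hl).1 (hGθ l hl) (hGN l hl)
  have hGl : ∀ l ∈ G', l₀ ≤ l := by
    intro l hl
    have h1 := (hGp l hl).2.2
    omega
  have hGlp : ∀ l ∈ G', ¬ l ∣ p := by
    intro l hl h
    have h1 := (hGp l hl).2.2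
    have h3 := Nat.le_of_dvd hp.pos h
    omega
  have hGne : ∀ l, ∃ l' ∈ G', l ≠ l' := by
    intro l
    obtain ⟨l', hl', hne⟩ := hinf.exists_gt l
    exact ⟨l', hl', by omega⟩
  have hfin : ∀ l ∈ G', Finite (𝓞 K →+* ZMod l) := fun l hl =>
    Nat.finite_of_card_ne_zero (by
      rw [show Nat.card (𝓞 K →+* ZMod l) = Module.finrank ℚ K from hGs l hl]
      exact Module.finrank_pos.ne')
  have hdens : ∀ l ∈ G', ∀ m : ℕ, ∀ κ : Fin 3,
      c₀ ≤ share g l (p ^ (d * m)) (G m l) (revs1 K o g (p ^ (d * m)) N κ l) := by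
    intro l hl m ev
    have h3 := (hGp l hl).2.2
    have hprime := (hGp l hl).1
    have hf := hfin l hl
    let _ : Fintype (𝓞 K →+* ZMod l) := Fintype.ofFinite _
    have hcard : Fintype.card (𝓞 K →+* ZMod l) = e := by
      rw [← Nat.card_eq_fintype_card]
      exact hGs l hl
    obtain ⟨χ₀⟩ : Nonempty (𝓞 K →+* ZMod l) := by
      rw [← Fintype.card_pos_iff, hcard]
      exact Module.finrank_pos
    have hdat' : ∀ χ, Dat o g N l (p ^ (d * m)) (G m l χ) c := fun χ =>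
      hdat l hprime (by omega) (hGlp l hl) m χ
    have hll : 2 * ((Fintype.card (𝓞 K →+* ZMod l) * g : ℕ) : ℝ) ≤ c * l := by
      rw [hcard]
      exact hl₂ l (by omega)
    have hc₀' : c₀ ≤ (c / 2 / 2 ^ g) ^ Fintype.card (𝓞 K →+* ZMod l) := by
      rw [hcard]
      exact hc₀'.le
    have h2 := fun ho => dens_flip hg0 hprime hc hdat' hll χ₀ ho
    have h2' := fun ho => dens_flip2 hg0 hprime hc hdat' hll χ₀ ho
    have h5 := dens_irr hg0 hprime hc hdat' hll χ₀
    have h6 := fun ho => dens_fix hg0 hprime hc hdat' hll χ₀ ho (ho3 ho)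
    have huniv : c₀ ≤ share g l (p ^ (d * m)) (G m l) Set.univ :=
      (hc₀'.trans h5).trans (share_mono hprime (Set.subset_univ _))
    unfold revs1
    simp only [finprod_eq_prod_of_fintype]
    rw [hcard] at h2 h2'
    fin_cases ev
    · dsimp only
      by_cases ho : o
      · refine (hc₀'.trans (by rw [hcard]; exact h2' ho)).trans (share_mono hprime ?_)
        intro u hu
        exact ⟨fun h => absurd ho h, fun _ => hu⟩
      · refine (hc₀'.trans (by rw [hcard]; exact h2 ho)).trans (share_mono hprime ?_)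
        intro u hu
        exact ⟨fun _ => hu, fun h => absurd h ho⟩
    · dsimp only
      exact (hc₀'.trans h5).trans (share_mono hprime fun u hu => ⟨χ₀, hu⟩)
    · dsimp only
      by_cases ho : o
      · exact (hc₀'.trans (h6 ho)).trans (share_mono hprime fun u hu _ => hu)
      · exact huniv.trans (share_mono hprime fun u _ h => absurd h ho)
  obtain ⟨m₀, h⟩ := almost_all_abs hS (I := Unit) (K := Fin 3) (fun _ m => F.S m) G' hinf
    (fun κ _ m l => F.rpat m l (revs1 K o g (p ^ (d * m)) N κ l))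
    (fun κ _ m l => share g l (p ^ (d * m)) (G m l) (revs1 K o g (p ^ (d * m)) N κ l))
    (by
      intro κ i l hl ε hε
      obtain ⟨l', hl', hne⟩ := hGne l
      obtain ⟨m₀, h⟩ := equi_single hM (hGp l hl).1 (hGp l' hl').1 (hGl l hl)
        (hGl l' hl') hne (hGs l hl) (hGs l' hl') (hGD l hl) (hGD l' hl') hε
      exact ⟨m₀, fun m hm hne => h m hm hne _⟩)
    (by
      intro κ i l hl l' hl' hne ε hε
      obtain ⟨m₀, h⟩ := equi_pair hM (hGp l hl).1 (hGp l' hl').1 (hGl l hl)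
        (hGl l' hl') hne (hGs l hl) (hGs l' hl') (hGD l hl) (hGD l' hl') hε
      exact ⟨m₀, fun m hm hne => h m hm hne _ _⟩) hc₀
    (fun κ i l hl m _ => ⟨hdens l hl m κ, by
      have := hfin l hl
      exact share_le_one (hGp l hl).1⟩) ε hε
  refine ⟨m₀ + 1, fun m hm => ?_⟩
  have hm0 : 0 < m := by omega
  have h' := h m (by omega)
  rw [Fintype.prod_unique] at h'
  refine le_trans ?_ h'
  refine Nat.cast_le.2 ?_
  rw [← Set.ncard_image_of_injective (bad F p o R N m)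
    (f := fun s : F.S m => (fun _ : Unit => s)) (fun s s' h => congrFun h ())]
  refine Set.ncard_le_ncard ?_ (Set.toFinite _)
  rintro _ ⟨s, hs, rfl⟩
  intro hpat
  apply hs
  have hO : (F.member m s).IsOver Φ m := hM.isOver m hm0 s
  have hdim : (F.member m s).obj.dim = d := hM.dim m s
  have hdeg : (F.member m s).pol.natDegree = Module.finrank ℚ K * g := degree_pol hM m hm0 s
  have hred : ∀ l ∈ G', (F.member m s).pol.map (Int.castRingHom (ZMod l)) =
      ∏ᶠ χ : 𝓞 K →+* ZMod l, (F.rpol m s).map χ := by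
    intro l hl
    have hf := hfin l hl
    let _ : Fintype (𝓞 K →+* ZMod l) := Fintype.ofFinite _
    rw [finprod_eq_prod_of_fintype]
    exact norm_red hθ l (hGp l hl).1 (hGθ l hl) (hGN l hl) _ _ (hM.norm m s)
  obtain ⟨l, hl, h1⟩ := hpat 0
  have h1' := h1 ()
  unfold revs1 RFamily.rpat at h1'
  dsimp only at h1'
  have hl2 : l ≠ 2 := by
    have h3 := (hGp l hl).2.2
    omega
  have hlq : ¬ l ∣ p ^ (d * m) := fun h => hGlp l hl ((hGp l hl).1.dvd_of_dvd_pow h)
  have hflip : (¬ o → (F.member m s).pol.map (Int.castRingHom (ZMod l)) ∈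
      flipSet (F.member m s).pol.natDegree N l (p ^ (d * m))) ∧
      (o → (F.member m s).pol.map (Int.castRingHom (ZMod l)) ∈
      flip2Set (F.member m s).pol.natDegree N l (p ^ (d * m))) := by
    rw [hdeg, hred l hl]
    exact h1'
  -- irreducibility
  have hirr : Irreducible ((F.member m s).pol.map (Int.castRingHom ℚ)) := by
    obtain ⟨l', hl', h2⟩ := hpat 1
    have h3 := h2 ()
    unfold revs1 RFamily.rpat at h3
    dsimp only at h3
    obtain ⟨χ, hχ⟩ := h3
    have : Fact l.Prime := ⟨(hGp l hl).1⟩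
    have hsq : Squarefree ((F.member m s).pol.map (Int.castRingHom (ZMod l))) := by
      by_cases ho : o
      · obtain ⟨T, t₀, t₁, hT, _, _, _, h4, _⟩ := hflip.2 ho
        rw [h4]
        exact (W806.MF.prod_good T hT).2.2
      · obtain ⟨T, t₀, hT, _, h4, _⟩ := hflip.1 ho
        rw [h4]
        exact (W806.MF.prod_good T hT).2.2
    exact irreducible_of_norm _ hO.monic _ (hM.monic m s) (hM.norm m s)
      (separable_of_squarefree_map _ hO.monic l (hGp l hl).1 hsq) (hGp l' hl').1 χ hχ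
  unfold Pattern
  rw [hdim]
  refine ⟨hirr, fun ho => ⟨l, (hGp l hl).1, hl2, hlq, hGR l hl, hflip.1 ho⟩, fun ho => ⟨?_,
    ⟨l, (hGp l hl).1, hl2, hlq, hGR l hl, hflip.2 ho⟩⟩⟩
  obtain ⟨l', hl', h2⟩ := hpat 2
  have h3 := h2 ()
  unfold revs1 RFamily.rpat at h3
  dsimp only at h3
  obtain ⟨t, v, h4, h5⟩ := h3 ho
  exact ⟨l', (hGp l' hl').1, t, v, by rw [hred l' hl']; exact h4, h5⟩

end Family

end Pool.Agent.V8H88.UN
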