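import Pool.Agent.V8H88.UN.Core

/-!
# Exchanges of elements and their powers
-/

set_option autoImplicit false
set_option linter.unusedSectionVars false

namespace Pool.Agent.V8H88.UN

section

variable {L : Type} [Field L] [Algebra ℚ L] [DecidableEq L]

/-- `σ` exchanges `α` and `q / α` and fixes the other elements of the set. -/
def F1 (q : ℕ) (Ω : Finset L) (α : L) (σ : L ≃ₐ[ℚ] L) : Prop :=
  σ α = (q : L) / α ∧ ∀ β ∈ Ω, β ≠ α → β ≠ (q : L) / α → σ β = β

/-- `σ` exchanges `α` and `q / α`, and `α'` and `q / α'`, and fixes the other elements of the set,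
and `τ` exchanges `α` and `q / α` and fixes `α'`. -/
def F2 (q : ℕ) (Ω : Finset L) (α α' : L) (σ τ : L ≃ₐ[ℚ] L) : Prop :=
  α' ∈ Ω ∧ α' ≠ α ∧ α' ≠ (q : L) / α ∧ σ α = (q : L) / α ∧ σ α' = (q : L) / α' ∧
    (∀ β ∈ Ω, β ≠ α → β ≠ (q : L) / α → β ≠ α' → β ≠ (q : L) / α' → σ β = β) ∧
    τ α = (q : L) / α ∧ τ α' = α'

/-- The properties of the set. -/
structure Good (q : ℕ) (Ω : Finset L) : Prop where
  q_ne : (q : L) ≠ 0
  ne_zero : ∀ x ∈ Ω, x ≠ 0
  bar : ∀ x ∈ Ω, (q : L) / x ∈ Ω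
  stab : ∀ (σ : L ≃ₐ[ℚ] L), ∀ x ∈ Ω, σ x ∈ Ω
  trans : ∀ x ∈ Ω, ∀ y ∈ Ω, ∃ σ : L ≃ₐ[ℚ] L, σ x = y
  pow_ne : ∀ x ∈ Ω, ∀ t : ℕ, 0 < t → (x ^ 2) ^ t ≠ (q : L) ^ t

variable {q : ℕ} {Ω : Finset L}

omit [DecidableEq L] in
lemma Good.bar_ne (G : Good q Ω) {x : L} (hx : x ∈ Ω) : x ≠ (q : L) / x := by
  intro h
  refine G.pow_ne x hx 1 one_pos ?_
  rw [pow_one, pow_one, pow_two]
  nth_rewrite 1 [h]
  exact div_mul_cancel₀ _ (G.ne_zero x hx)

omit [DecidableEq L] in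
lemma Good.stab_symm (G : Good q Ω) (σ : L ≃ₐ[ℚ] L) (x : L) : σ.symm x ∈ Ω ↔ x ∈ Ω := by
  constructor
  · intro h
    have := G.stab σ _ h
    rwa [σ.apply_symm_apply] at this
  · exact G.stab σ.symm x

omit [DecidableEq L] in
lemma Good.bar_iff (G : Good q Ω) (x : L) : (q : L) / x ∈ Ω ↔ x ∈ Ω := by
  constructor
  · intro h
    have h1 := G.bar _ h
    rwa [div_div_cancel₀ G.q_ne] at h1
  · exact G.bar x

omit [DecidableEq L] in
lemma symm_bar (G : Good q Ω) {σ : L ≃ₐ[ℚ] L} {α : L} (h : σ α = (q : L) / α) :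
    σ.symm α = (q : L) / α ∧ σ.symm ((q : L) / α) = α := by
  constructor
  · rw [AlgEquiv.symm_apply_eq, map_div₀, map_natCast, h, div_div_cancel₀ G.q_ne]
  · rw [AlgEquiv.symm_apply_eq, h]

theorem prj_of_F1 (G : Good q Ω) {α : L} (hα : α ∈ Ω) {σ : L ≃ₐ[ℚ] L} (h : F1 q Ω α σ) :
    IsPrj q Ω α σ σ := by
  intro c hc hodd y
  obtain ⟨h1, h2⟩ := h
  obtain ⟨s1, s2⟩ := symm_bar G h1
  have hb := hodd α hα
  have hne := G.bar_ne hα
  unfold ee
  by_cases hy1 : y = α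
  · rw [if_pos hy1, hy1, s1, s2, hb]
    ring
  · rw [if_neg hy1]
    by_cases hy2 : y = (q : L) / α
    · rw [if_pos hy2, hy2, s2, s1, hb]
      ring
    · rw [if_neg hy2]
      by_cases hy : y ∈ Ω
      · have h3 : σ.symm y = y := by
          rw [AlgEquiv.symm_apply_eq]
          exact (h2 y hy hy1 hy2).symm
        rw [h3, h3]
        ring
      · rw [hc y hy, hc _ (by rwa [G.stab_symm]), hc _ (by rwa [G.stab_symm, G.stab_symm])]
        ring

theorem prj_of_F2 (G : Good q Ω) {α α' : L} (hα : α ∈ Ω) {σ τ : L ≃ₐ[ℚ] L}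
    (h : F2 q Ω α α' σ τ) : IsPrj q Ω α σ τ := by
  intro c hc hodd y
  obtain ⟨hα', n1, n2, h1, h1', h2, t1, t2⟩ := h
  obtain ⟨s1, s2⟩ := symm_bar G h1
  obtain ⟨s1', s2'⟩ := symm_bar G h1'
  obtain ⟨r1, r2⟩ := symm_bar G t1
  have r3 : τ.symm α' = α' := by
    rw [AlgEquiv.symm_apply_eq]
    exact t2.symm
  have r4 : τ.symm ((q : L) / α') = (q : L) / α' := by
    rw [map_div₀, map_natCast, r3]
  have hb := hodd α hα
  have hb' := hodd α' hα'
  have hne := G.bar_ne hα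
  have hne' := G.bar_ne hα'
  unfold ee
  by_cases hy1 : y = α
  · rw [if_pos hy1, hy1, s1, r1, s2, hb]
    ring
  · rw [if_neg hy1]
    by_cases hy2 : y = (q : L) / α
    · rw [if_pos hy2, hy2, s2, r2, s1, hb]
      ring
    · rw [if_neg hy2, mul_zero]
      by_cases hy3 : y = α'
      · rw [hy3, r3, sub_self]
      · by_cases hy4 : y = (q : L) / α'
        · rw [hy4, r4, sub_self]
        · by_cases hy : y ∈ Ω
          · have h3 : σ.symm y = y := by
              rw [AlgEquiv.symm_apply_eq]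
              exact (h2 y hy hy1 hy2 hy3 hy4).symm
            have h4 : σ.symm (τ.symm y) = τ.symm y := by
              rw [AlgEquiv.symm_apply_eq]
              symm
              refine h2 _ ((G.stab_symm τ y).2 hy) ?_ ?_ ?_ ?_
              · intro e
                rw [AlgEquiv.symm_apply_eq, t1] at e
                exact hy2 e
              · intro e
                rw [AlgEquiv.symm_apply_eq, map_div₀, map_natCast, t1,
                  div_div_cancel₀ G.q_ne] at e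
                exact hy1 e
              · intro e
                rw [AlgEquiv.symm_apply_eq, t2] at e
                exact hy3 e
              · intro e
                rw [AlgEquiv.symm_apply_eq, map_div₀, map_natCast, t2] at e
                exact hy4 e
            rw [h3, h4]
            ring
          · rw [hc y hy, hc _ (by rwa [G.stab_symm]), hc _ (by rwa [G.stab_symm]),
              hc _ (by rwa [G.stab_symm, G.stab_symm])]
            ring

/-- There are exchanges at every element, which have the property `P`. -/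
def Flips (q : ℕ) (Ω : Finset L) (P : (L ≃ₐ[ℚ] L) → Prop) : Prop :=
  ∀ α ∈ Ω, (∃ σ, F1 q Ω α σ ∧ P σ) ∨ ∃ α' σ τ, F2 q Ω α α' σ τ ∧ P σ

theorem prj_of_flips (G : Good q Ω) {P : (L ≃ₐ[ℚ] L) → Prop} (hF : Flips q Ω P) :
    ∀ α ∈ Ω, ∃ σ τ, IsPrj q Ω α σ τ ∧ P σ := by
  intro α hα
  rcases hF α hα with ⟨σ, h, hP⟩ | ⟨α', σ, τ, h, hP⟩
  · exact ⟨σ, σ, prj_of_F1 G hα h, hP⟩
  · exact ⟨σ, τ, prj_of_F2 G hα h, hP⟩

/-- The powers are different. -/
theorem Good.pow_inj (G : Good q Ω) {P : (L ≃ₐ[ℚ] L) → Prop} (hF : Flips q Ω P) {c : ℕ}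
    (hc : 0 < c) {x y : L} (hx : x ∈ Ω) (hy : y ∈ Ω) (h : x ^ c = y ^ c) : x = y := by
  by_contra hne
  have hbad : ((q : L) / x) ^ c = x ^ c → False := by
    intro h1
    refine G.pow_ne x hx c hc ?_
    rw [← pow_mul, mul_comm, pow_mul, pow_two]
    nth_rewrite 1 [← h1]
    rw [← mul_pow, div_mul_cancel₀ _ (G.ne_zero x hx)]
  have hy2 : y ≠ (q : L) / x := by
    intro e
    rw [e] at h
    exact hbad h.symm
  rcases hF x hx with ⟨σ, ⟨h1, h2⟩, -⟩ | ⟨α', σ, τ, ⟨hα', n1, n2, h1, h1', h2, t1, t2⟩, -⟩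
  · have h3 := congrArg σ h
    rw [map_pow, map_pow, h1, h2 y hy (Ne.symm hne) hy2, ← h] at h3
    exact hbad h3
  · by_cases h4 : y = α'
    · have h3 := congrArg τ h
      rw [map_pow, map_pow, t1, h4, t2, ← h4, ← h] at h3
      exact hbad h3
    · by_cases h5 : y = (q : L) / α'
      · have h6 : τ y = y := by rw [h5, map_div₀, map_natCast, t2]
        have h3 := congrArg τ h
        rw [map_pow, map_pow, t1, h6, ← h] at h3
        exact hbad h3
      · have h3 := congrArg σ h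
        rw [map_pow, map_pow, h1, h2 y hy (Ne.symm hne) hy2 h4 h5, ← h] at h3
        exact hbad h3

/-- The powers of the elements have the same properties. -/
theorem Good.pow (G : Good q Ω) {c : ℕ} (hc : 0 < c) : Good (q ^ c) (Ω.image (· ^ c)) := by
  refine ⟨?_, ?_, ?_, ?_, ?_, ?_⟩
  · push_cast
    exact pow_ne_zero _ G.q_ne
  · intro x hx
    obtain ⟨y, hy, rfl⟩ := Finset.mem_image.1 hx
    exact pow_ne_zero _ (G.ne_zero y hy)
  · intro x hx
    obtain ⟨y, hy, rfl⟩ := Finset.mem_image.1 hx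
    refine Finset.mem_image.2 ⟨(q : L) / y, G.bar y hy, ?_⟩
    push_cast
    rw [div_pow]
  · intro σ x hx
    obtain ⟨y, hy, rfl⟩ := Finset.mem_image.1 hx
    exact Finset.mem_image.2 ⟨σ y, G.stab σ y hy, (map_pow σ y c).symm⟩
  · intro x hx x' hx'
    obtain ⟨y, hy, rfl⟩ := Finset.mem_image.1 hx
    obtain ⟨y', hy', rfl⟩ := Finset.mem_image.1 hx'
    obtain ⟨σ, hσ⟩ := G.trans y hy y' hy'
    exact ⟨σ, by rw [map_pow, hσ]⟩
  · intro x hx t ht h
    obtain ⟨y, hy, rfl⟩ := Finset.mem_image.1 hx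
    refine G.pow_ne y hy (c * t) (Nat.mul_pos hc ht) ?_
    push_cast at h
    rw [pow_mul, pow_mul, ← h]
    ring

theorem Flips.pow (G : Good q Ω) {P : (L ≃ₐ[ℚ] L) → Prop} (hF : Flips q Ω P) {c : ℕ}
    (hc : 0 < c) : Flips (q ^ c) (Ω.image (· ^ c)) P := by
  intro x hx
  obtain ⟨α, hα, rfl⟩ := Finset.mem_image.1 hx
  have hcast : ((q ^ c : ℕ) : L) = (q : L) ^ c := by push_cast; rfl
  have hbar : ∀ z : L, ((q ^ c : ℕ) : L) / z ^ c = ((q : L) / z) ^ c := by
    intro z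
    rw [hcast, div_pow]
  rcases hF α hα with ⟨σ, ⟨h1, h2⟩, hP⟩ | ⟨α', σ, τ, ⟨hα', n1, n2, h1, h1', h2, t1, t2⟩, hP⟩
  · refine Or.inl ⟨σ, ⟨?_, ?_⟩, hP⟩
    · rw [map_pow, h1, hbar]
    · intro β hβ m1 m2
      obtain ⟨b, hb, rfl⟩ := Finset.mem_image.1 hβ
      rw [map_pow, h2 b hb (fun e => m1 (by rw [e])) (fun e => m2 (by rw [hbar, e]))]
  · refine Or.inr ⟨α' ^ c, σ, τ, ⟨Finset.mem_image.2 ⟨α', hα', rfl⟩, ?_, ?_, ?_, ?_, ?_, ?_, ?_⟩,
      hP⟩
    · exact fun e => n1 (G.pow_inj hF hc hα' hα e)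
    · rw [hbar]
      exact fun e => n2 (G.pow_inj hF hc hα' (G.bar α hα) e)
    · rw [map_pow, h1, hbar]
    · rw [map_pow, h1', hbar]
    · intro β hβ m1 m2 m3 m4
      obtain ⟨b, hb, rfl⟩ := Finset.mem_image.1 hβ
      rw [map_pow, h2 b hb (fun e => m1 (by rw [e])) (fun e => m2 (by rw [hbar, e]))
        (fun e => m3 (by rw [e])) (fun e => m4 (by rw [hbar, e]))]
    · rw [map_pow, t1, hbar]
    · rw [map_pow, t2]

/-- An automorphism fixes the powers if and only if it fixes the elements. -/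
theorem Good.fix_pow (G : Good q Ω) {P : (L ≃ₐ[ℚ] L) → Prop} (hF : Flips q Ω P) {c : ℕ}
    (hc : 0 < c) (ρ : L ≃ₐ[ℚ] L) :
    (∀ x ∈ Ω.image (· ^ c), ρ x = x) ↔ ∀ x ∈ Ω, ρ x = x := by
  constructor
  · intro h x hx
    have h1 := h (x ^ c) (Finset.mem_image.2 ⟨x, hx, rfl⟩)
    rw [map_pow] at h1
    exact G.pow_inj hF hc (G.stab ρ x hx) hx h1
  · intro h x hx
    obtain ⟨y, hy, rfl⟩ := Finset.mem_image.1 hx
    rw [map_pow, h y hy]

end

end Pool.Agent.V8H88.UN
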