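import Pool.Agent.V8H88.UN.Diff
import Pool.Agent.V8H88.UN.Base

/-!
# The uniform theorem
-/

set_option autoImplicit false
set_option linter.unusedSectionVars false

open CategoryTheory AlgebraicGeometry Polynomial NumberField

universe u v

namespace Pool.Agent.V8H88.UN

open Pool.Agent.H914 Pool.Agent.W534 Pool.Agent.W521.Frob Pool.Agent.W458.MF VarClass Obj
  WeilCohomology Pool.Agent.V8H88.UF Pool.Agent.V8H88.RM

variable {k : Type u} [Field k] {𝒱 : VarClass k} {ops : CycleOps 𝒱}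

/-- Products use only finitely many varieties. -/
lemma exists_finset {X : Type*} (f : X → 𝒱.Obj) (T : Set X) (Y Z : 𝒱.Obj)
    (hZ : IsProductOf ({Y} ∪ f '' T) Z) :
    ∃ T₀ : Finset X, (∀ x ∈ T₀, x ∈ T) ∧ IsProductOf ({Y} ∪ f '' (T₀ : Set X)) Z := by
  classical
  induction hZ with
  | @base X' h =>
    rcases h with h | ⟨x, hx, rfl⟩
    · exact ⟨∅, by simp, IsProductOf.base (Or.inl h)⟩
    · refine ⟨{x}, ?_, IsProductOf.base (Or.inr ⟨x, by simp, rfl⟩)⟩
      intro y hy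
      rw [Finset.mem_singleton] at hy
      rw [hy]
      exact hx
  | @prod X₁ X₂ _ _ ih₁ ih₂ =>
    obtain ⟨T₁, h1, h1'⟩ := ih₁
    obtain ⟨T₂, h2, h2'⟩ := ih₂
    have hmono : ∀ (S S' : Set 𝒱.Obj) (V : 𝒱.Obj), S ⊆ S' → IsProductOf S V →
        IsProductOf S' V := by
      intro S S' V hSS hV
      induction hV with
      | base h => exact IsProductOf.base (hSS h)
      | prod _ _ i1 i2 => exact IsProductOf.prod i1 i2
    refine ⟨T₁ ∪ T₂, ?_, IsProductOf.prod ?_ ?_⟩
    · intro x hx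
      rcases Finset.mem_union.1 hx with h | h
      · exact h1 x h
      · exact h2 x h
    · refine hmono _ _ _ ?_ h1'
      refine Set.union_subset_union_right _ (Set.image_mono ?_)
      intro x hx
      exact Finset.mem_coe.2 (Finset.mem_union_left _ (Finset.mem_coe.1 hx))
    · refine hmono _ _ _ ?_ h2'
      refine Set.union_subset_union_right _ (Set.image_mono ?_)
      intro x hx
      exact Finset.mem_coe.2 (Finset.mem_union_right _ (Finset.mem_coe.1 hx))

/-- **The uniform theorem.** -/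
theorem uniform (W : WeilCohomology.{u, v} ops)
    [IsAlgClosed W.K] (σ : W.K →+* ℂ) (p : ℕ)
    (hp : p.Prime) (Φ : FrobSystem W p) (Y : 𝒱.Obj)
    (hint : ∀ μ : W.K, Module.End.HasEigenvalue (W.map (Φ.Fr Y)).toLinearMap μ → IsIntegral ℤ μ)
    (hY : ∀ Z, IsProductOf {Y} Z → ∀ j ≤ Z.dim, SemisimpleTateIn Φ Z j)
    {I : Type} (K : I → Type) [∀ i, Field (K i)] [∀ i, NumberField (K i)]
    (F : ∀ i, RFamily W Y (K i)) (hF : ∀ i, (F i).HasFullMonodromy Φ) :
    Uniform (fun i => (F i).toFamily) p fun Z => ∀ j, SemisimpleTateIn Φ Z j := by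
  classical
  obtain ⟨R, hRm, hRs, hR, hRz⟩ := exists_R'
    (Module.End.finite_hasEigenvalue (W.map (Φ.Fr Y)).toLinearMap) hint
  choose o N hN hB using fun i => fam (Φ := Φ) hp hRm hRs (F i) (hF i)
  obtain ⟨B, hB0, hB1⟩ : ∃ B : ∀ i m, Set ((F i).S m), (∀ i, B i 0 = Set.univ) ∧
      ∀ i m, m ≠ 0 → B i m = bad (F i) p (o i) R (N i) m :=
    ⟨fun i m => if m = 0 then Set.univ else bad (F i) p (o i) R (N i) m,
      fun i => if_pos rfl, fun i m hm => if_neg hm⟩
  refine ⟨⟨B, fun i ε hε => ?_, fun T hT hdiff Z hZ => ?_⟩, fun i j ε hε => ?_⟩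
  · obtain ⟨m₀, h⟩ := hB i ε hε
    refine ⟨m₀ + 1, fun m hm => ?_⟩
    rw [hB1 i m (by omega)]
    exact h m (by omega)
  swap
  · obtain ⟨m₀, h⟩ := diff_pairs hp K F hF i j ε hε
    refine ⟨m₀, fun m hm => ?_⟩
    have h1 := h m hm
    rw [Nat.card_prod, Nat.cast_mul]
    exact h1
  have hT' : ∀ x ∈ T, ∃ (i : I) (s : (F i).S x.2), 0 < x.2 ∧ s ∉ bad (F i) p (o i) R (N i) x.2 ∧
      x.1 = (F i).member x.2 s := by
    rintro ⟨P, m⟩ hx
    obtain ⟨i, s, hs, hxs⟩ := hT _ hx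
    rcases Nat.eq_zero_or_pos m with h0 | h0
    · subst h0
      change s ∉ B i 0 at hs
      rw [hB0 i] at hs
      exact absurd (Set.mem_univ s) hs
    · change s ∉ B i m at hs
      rw [hB1 i m h0.ne'] at hs
      exact ⟨i, s, h0, hs, hxs⟩
  obtain ⟨T₀, hT₀, hZ₀⟩ := exists_finset _ T Y Z hZ
  set m' : ℕ := ∏ x ∈ T₀, x.2 with hm'
  set x : Fin T₀.card → Piece W Y × ℕ := fun j => (T₀.equivFin.symm j).1 with hxdef
  have hxT₀ : ∀ j, x j ∈ T₀ := fun j => (T₀.equivFin.symm j).2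
  have hxT : ∀ j, x j ∈ T := fun j => hT₀ _ (hxT₀ j)
  have hxinj : Function.Injective x := fun j j' h =>
    T₀.equivFin.symm.injective (Subtype.ext h)
  have hT1 : ∀ j, ∃ (i : I) (s : (F i).S (x j).2), 0 < (x j).2 ∧
      s ∉ bad (F i) p (o i) R (N i) (x j).2 ∧ (x j).1 = (F i).member (x j).2 s :=
    fun j => hT' _ (hxT j)
  choose i s hm0 hs hxs using hT1
  have hm'0 : 0 < m' := Finset.prod_pos fun x hx => by
    obtain ⟨_, _, h, -⟩ := hT' x (hT₀ x hx)
    exact h
  have hdvd : ∀ j, (x j).2 ∣ m' := fun j => Finset.dvd_prod_of_mem _ (hxT₀ j)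
  have hO : ∀ j, (x j).1.IsOver Φ (x j).2 := by
    intro j
    obtain ⟨d, g, l₀, D, G, hM⟩ := hF (i j)
    rw [hxs j]
    exact hM.isOver (x j).2 (hm0 j) (s j)
  set c : Fin T₀.card → ℕ := fun j => m' / (x j).2 with hc
  have hmc : ∀ j, (x j).2 * c j = m' := fun j => Nat.mul_div_cancel' (hdvd j)
  have hc0 : ∀ j, 0 < c j := by
    intro j
    refine Nat.pos_of_ne_zero fun h => ?_
    have h1 := hmc j
    rw [h, mul_zero] at h1
    omega
  set P : Fin T₀.card → Piece W Y := fun j =>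
    ext (x j).1 (p ^ ((x j).1.obj.dim * (x j).2)) (hO j).monic (c j) with hP
  have hPO : ∀ j, (P j).IsOver Φ m' := by
    intro j
    have h1 := isOver_ext (hO j) (hc0 j)
    rwa [hmc j] at h1
  have hQ : ∀ j, (P j).Q p m' = (p ^ ((x j).1.obj.dim * (x j).2)) ^ c j := by
    intro j
    change p ^ ((x j).1.obj.dim * m') = _
    rw [← pow_mul, mul_assoc, hmc]
  have hnt := nt_un (fun j => o (i j))
    (fun j => p ^ ((x j).1.obj.dim * (x j).2)) (fun j => (x j).1.pol) R
    (fun j => N (i j)) c hc0 (fun j => pow_pos hp.pos _) (fun j => (hO j).monic) hRm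
    (fun j => by
      rw [hxs j]
      exact hN (i j) (x j).2 (hm0 j) (s j))
    (fun j => by
      have h1 := hs j
      by_contra h2
      apply h1
      change ¬ Pattern _ _ _ _ _
      rw [← hxs j]
      exact h2)
    (fun j j' hjj h => hjj (hxinj (hdiff (hxT j) (hxT j') (by
      rw [show x j = ((x j).1, (x j).2) from rfl, show x j' = ((x j').1, (x j').2) from rfl,
        field_eq _ _ (hO j).monic, field_eq _ _ (hO j').monic]
      exact h))))
  have H : Setup Φ σ P m' R := by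
    refine ⟨hp.one_lt, hm'0, hPO, fun μ hμ => hR μ hμ, ?_, ?_⟩
    · have e : (fun j => (P j).Q p m') =
          fun j => (p ^ ((x j).1.obj.dim * (x j).2)) ^ c j := funext hQ
      rw [e]
      exact hnt.1
    · intro j
      rw [hQ j]
      exact hnt.2 j
  refine tate_products W397.MF.pair W40.MF.span H hY Z ?_
  have e : (Set.range fun j => (P j).obj) = (fun x => x.1.obj) ''
      (T₀ : Set (Piece W Y × ℕ)) := by
    ext V
    constructor
    · rintro ⟨j, rfl⟩
      exact ⟨x j, hxT₀ j, rfl⟩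
    · rintro ⟨y, hy, rfl⟩
      refine ⟨T₀.equivFin ⟨y, hy⟩, ?_⟩
      change (x (T₀.equivFin ⟨y, hy⟩)).1.obj = y.1.obj
      rw [hxdef]
      simp only [Equiv.symm_apply_apply]
  rw [e]
  exact hZ₀

end Pool.Agent.V8H88.UN
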