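import Pool.Agent.V8H88.UN.Flip
import Pool.Agent.V8H88.RM.NT3

/-!
# The exchanges of the roots of one polynomial
-/

set_option autoImplicit false
set_option linter.unusedSectionVars false

open Polynomial NumberField

namespace Pool.Agent.V8H88.UN

open Pool.Agent.W458.MF Pool.Agent.W521.Frob Pool.Agent.W521.Criterion Pool.Agent.W338.MF
  Pool.Agent.W928.MF Pool.Agent.V8H88.RM

/-- The patterns of a polynomial. -/
def Pattern (o : Prop) (q : ℕ) (h R : ℤ[X]) (N : ℕ) : Prop :=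
  Irreducible (h.map (Int.castRingHom ℚ)) ∧
  (¬ o → ∃ l : ℕ, l.Prime ∧ l ≠ 2 ∧ ¬ l ∣ q ∧ SplitsMod R l ∧
      h.map (Int.castRingHom (ZMod l)) ∈ flipSet h.natDegree N l q) ∧
  (o → (∃ l : ℕ, l.Prime ∧ ∃ (t : ZMod l) (u : (ZMod l)[X]),
        h.map (Int.castRingHom (ZMod l)) = (X - C t) * u ∧ ∀ s, u.eval s ≠ 0) ∧
      ∃ l : ℕ, l.Prime ∧ l ≠ 2 ∧ ¬ l ∣ q ∧ SplitsMod R l ∧
        h.map (Int.castRingHom (ZMod l)) ∈ flip2Set h.natDegree N l q)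

section

variable {q : ℕ} {h R : ℤ[X]} {L : Type} [Field L] [Algebra ℚ L] [DecidableEq L]
  {Ω : Finset L}

lemma F1_of_flp (hΩ : ∀ x, x ∈ Ω ↔ aeval x (weil q h) = 0) {α : L}
    (hf : Flp (fun _ : Unit => q) (fun _ => h) R () α) :
    ∃ σ, F1 q Ω α σ ∧ ∀ β : L, aeval β R = 0 → σ β = β := by
  obtain ⟨σ, h1, _, h3, _, h5⟩ := hf
  exact ⟨σ, ⟨h1, fun β hβ => h3 β ((hΩ β).1 hβ)⟩, h5⟩

lemma F2_of_flp2 [CharZero L] (hq : q ≠ 0) (hm : h.Monic)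
    (hΩ : ∀ x, x ∈ Ω ↔ aeval x (weil q h) = 0) {α : L}
    (hf : Flp2 (fun _ : Unit => q) (fun _ => h) R () α) :
    (∃ σ, F1 q Ω α σ ∧ ∀ β : L, aeval β R = 0 → σ β = β) ∨
      ∃ α' σ τ, F2 q Ω α α' σ τ ∧ ∀ β : L, aeval β R = 0 → σ β = β := by
  obtain ⟨α', σ, τ, _, n1, n2, _, _, h1, h1', h3, _, h5, t1, t2⟩ := hf
  have hqL : (q : L) ≠ 0 := by exact_mod_cast hq
  by_cases hα' : α' ∈ Ω
  · exact Or.inr ⟨α', σ, τ, ⟨hα', n1, n2, h1, h1', fun β hβ => h3 β ((hΩ β).1 hβ), t1, t2⟩, h5⟩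
  · refine Or.inl ⟨σ, ⟨h1, fun β hβ m1 m2 => h3 β ((hΩ β).1 hβ) m1 m2 ?_ ?_⟩, h5⟩
    · intro e
      rw [e] at hβ
      exact hα' hβ
    · intro e
      apply hα'
      rw [e] at hβ
      rw [hΩ] at hβ ⊢
      have h6 := root_conj hq hm hβ
      rwa [div_div_cancel₀ hqL] at h6

end

/-- **The exchanges of the roots of one polynomial.** -/
theorem member {o : Prop} {q : ℕ} {h R : ℤ[X]} {N : ℕ} (hq : 0 < q) (hm : h.Monic)
    (hR : R.Monic)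
    (huni : ∀ z : ℂ, (∃ t : ℕ, 0 < t ∧ z ^ t = 1) →
      (∃ P : ℚ[X], P ≠ 0 ∧ P.natDegree ≤ 2 * h.natDegree ∧ aeval z P = 0) → z ^ N = 1)
    (hpat : Pattern o q h R N)
    (L : Type) [Field L] [NumberField L] [IsGalois ℚ L] [DecidableEq L] (j : L →+* ℂ)
    (hL : ∀ z : ℂ, aeval z (weil q h) = 0 → ∃ x : L, j x = z)
    {Ω : Finset L} (hΩ : ∀ x, x ∈ Ω ↔ aeval x (weil q h) = 0) :
    Good q Ω ∧ Flips q Ω (fun σ => ∀ β : L, aeval β R = 0 → σ β = β) := by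
  classical
  obtain ⟨hirr, hflip, hflip2⟩ := hpat
  have hF : St_FLIP := W976.MF.FLIP
  have hF2 : St_FLIP2 := W902.MF.FLIP2
  have hq' : q ≠ 0 := hq.ne'
  have hqL : (q : L) ≠ 0 := by exact_mod_cast hq'
  have hL' : ∀ _ : Unit, ∀ z : ℂ, aeval z (weil q h) = 0 → ∃ x : L, j x = z := fun _ => hL
  have hsp : (h.map (algebraMap ℤ L)).Splits :=
    splits_h (I := Unit) hq' (fun _ => hm) L j hL' ()
  have hqd : ∀ θ : L, aeval θ h = 0 → ∃ α : L, α ^ 2 + (q : L) = θ * α :=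
    quad_L (I := Unit) hq' (fun _ => hm) L j hL' ()
  have key : ∀ α : L, aeval α (weil q h) = 0 →
      ((∃ σ, F1 q Ω α σ ∧ ∀ β : L, aeval β R = 0 → σ β = β) ∨
        ∃ α' σ τ, F2 q Ω α α' σ τ ∧ ∀ β : L, aeval β R = 0 → σ β = β) ∧
      ∀ t : ℕ, 0 < t → (α ^ 2) ^ t ≠ (q : L) ^ t := by
    intro α hα
    by_cases ho : o
    · obtain ⟨⟨l', hl', t', u', hfac, hu'⟩, l, hl, hl2, hlq, hlR, hfl⟩ := hflip2 ho
      obtain ⟨T, t₀, t₁, hTc, ht₀, ht₁, hne01, hT, hns0, hns1, hlu, hsq⟩ := hfl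
      obtain ⟨σ, θ₀, θ₁, a1, a2, a3, a4, a5, a6, a7, a8⟩ := hF2 (fun _ : Unit => q) (fun _ => h) R
        (luc q N) (fun _ => hm) hR L () hsp hqd l hl hl2 (fun _ => hlq) hlR
        (fun i hi => absurd (Subsingleton.elim i ()) hi)
        ⟨T, t₀, t₁, ht₀, ht₁, hne01, hT, hns0, hns1, hlu, hsq⟩
      have hE : Edg (fun _ : Unit => q) (fun _ => h) R () θ₀ θ₁ := ⟨σ, a5, a6, a7, a8⟩
      obtain ⟨ρ, ϑ, b1, b2, b3⟩ := exists_fix h hm L hsp l' hl' t' u' hfac hu'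
      refine ⟨?_, ?_⟩
      · have hθ := ((root_iff hq' hm α).1 hα).2
        obtain ⟨θ', θ'', c1, c2, c3, c4, c5⟩ := two_partners (q := fun _ : Unit => q)
          (h := fun _ => h) (fun _ => hm) L () hirr θ₀ θ₁ a1 a2 a3 hE
          ρ ϑ b1 b2 b3 (α + (q : L) / α) hθ
        exact F2_of_flp2 hq' hm hΩ (flp2_of_edg (q := fun _ : Unit => q) (fun _ => hq')
          (fun _ => hm) L () hqd α hα θ' θ'' c1 c2 c3 c4 c5)
      · intro t ht hαt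
        obtain ⟨α₀, hα₀⟩ := hqd θ₀ a1
        have hα₀0 : α₀ ≠ 0 := by
          rintro rfl
          rw [zero_pow two_ne_zero, zero_add, mul_zero] at hα₀
          exact hqL hα₀
        have hα₀w : aeval α₀ (weil q h) = 0 := by
          rw [aeval_weil q h α₀ θ₀ hα₀, a1, mul_zero]
        have hθe : α₀ + (q : L) / α₀ = θ₀ := by
          apply mul_right_cancel₀ hα₀0
          rw [← hα₀]
          field_simp
        have hne := (a5 α₀ hα₀w (Or.inl hθe)).2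
        refine no_rou (q := fun _ : Unit => q) (fun _ => hq') (fun _ => hm) L j hL' () hirr huni
          α₀ hα₀w hne ?_ α hα t ht hαt
        change aeval (α₀ + (q : L) / α₀) _ ≠ 0
        rw [hθe]
        exact a4
    · obtain ⟨l, hl, hl2, hlq, hlR, hfl⟩ := hflip ho
      obtain ⟨T, t₀, hTc, ht₀, hT, hns, hlu, hsq⟩ := hfl
      obtain ⟨σ, α₀, a1, a2, a3, a4, a5, a6, a7⟩ := hF (fun _ : Unit => q) (fun _ => h) R
        (luc q N) (fun _ => hm) hR L () hsp hqd l hl hl2 (fun _ => hlq) hlR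
        (fun i hi => absurd (Subsingleton.elim i ()) hi) ⟨T, t₀, ht₀, hT, hns, hlu, hsq⟩
      have hfl0 : Flp (fun _ : Unit => q) (fun _ => h) R () α₀ := ⟨σ, a2, a3, a5, a6, a7⟩
      exact ⟨Or.inl (F1_of_flp hΩ (flp_conj (q := fun _ : Unit => q) (fun _ => hq')
        (fun _ => hm) L j hL' () hirr α₀ a1 hfl0 α hα)), fun t ht hαt =>
        no_rou (q := fun _ : Unit => q) (fun _ => hq') (fun _ => hm) L j hL' () hirr huni α₀ a1
          a3 a4 α hα t ht hαt⟩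
  refine ⟨⟨hqL, ?_, ?_, ?_, ?_, ?_⟩, ?_⟩
  · intro x hx
    exact root_ne_zero hq' hm ((hΩ x).1 hx)
  · intro x hx
    exact (hΩ _).2 (root_conj hq' hm ((hΩ x).1 hx))
  · intro σ x hx
    exact (hΩ _).2 (aeval_alg L _ _ _ ((hΩ x).1 hx))
  · intro x hx y hy
    obtain ⟨τ, hτ⟩ := exists_tau (I := Unit) hq' (fun _ => hm) L j hL' () hirr x y
      ((hΩ x).1 hx) ((hΩ y).1 hy)
    rcases hτ with e | e
    · exact ⟨τ, e⟩
    · rcases (key y ((hΩ y).1 hy)).1 with ⟨σ, ⟨h1, -⟩, -⟩ | ⟨α', σ, τ', ⟨-, -, -, h1, -⟩, -⟩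
      · refine ⟨τ.trans σ, ?_⟩
        rw [AlgEquiv.trans_apply, e, map_div₀, map_natCast, h1, div_div_cancel₀ hqL]
      · refine ⟨τ.trans σ, ?_⟩
        rw [AlgEquiv.trans_apply, e, map_div₀, map_natCast, h1, div_div_cancel₀ hqL]
  · intro x hx
    exact (key x ((hΩ x).1 hx)).2
  · intro x hx
    exact (key x ((hΩ x).1 hx)).1

/-- Separability. -/
theorem member_sep {o : Prop} {q : ℕ} {h R : ℤ[X]} {N : ℕ} (hq : 0 < q) (hm : h.Monic)
    (hR : R.Monic)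
    (huni : ∀ z : ℂ, (∃ t : ℕ, 0 < t ∧ z ^ t = 1) →
      (∃ P : ℚ[X], P ≠ 0 ∧ P.natDegree ≤ 2 * h.natDegree ∧ aeval z P = 0) → z ^ N = 1)
    (hpat : Pattern o q h R N) : ((weil q h).map (Int.castRingHom ℚ)).Separable := by
  classical
  obtain ⟨L, _, _, _, j, hj⟩ := exists_field' _ (weil_monic q hm)
  have hq' : q ≠ 0 := hq.ne'
  set Ω : Finset L := ((weil q h).map (algebraMap ℤ L)).roots.toFinset with hΩ
  have hΩ' : ∀ x, x ∈ Ω ↔ aeval x (weil q h) = 0 := by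
    intro x
    rw [hΩ, Multiset.mem_toFinset, mem_roots ((weil_monic q hm).map _).ne_zero, IsRoot.def,
      eval_map]
    rfl
  obtain ⟨hG, -⟩ := member hq hm hR huni hpat L j hj hΩ'
  have hsp : (h.map (algebraMap ℤ L)).Splits :=
    splits_h (I := Unit) hq' (fun _ => hm) L j (fun _ => hj) ()
  have hqd : ∀ θ : L, aeval θ h = 0 → ∃ α : L, α ^ 2 + (q : L) = θ * α :=
    quad_L (I := Unit) hq' (fun _ => hm) L j (fun _ => hj) ()
  exact sep hq' hm hpat.1 L hsp hqd fun α hα => hG.bar_ne ((hΩ' α).2 hα)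

end Pool.Agent.V8H88.UN
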